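import Pool.Agent.H41.CUBE.JStmts

set_option autoImplicit false

/-! Cube project, board `cubj`, module `WF`. -/

open Finset MvPolynomial

namespace Pool.CUBE

namespace WFmod

variable {n : ℕ} {A : Type} [CommRing A]

theorem lev_zero (g : Poly n A) : lev 0 g = 0 := by
  induction g using MvPolynomial.induction_on' with
  | add g1 g2 h1 h2 => rw [map_add, h1, h2, add_zero]
  | monomial a r => rw [lev_monomial, if_neg (by omega)]

theorem wt_lev (N : ℕ) (g : Poly n A) : Wt N (lev N g) := by
  induction g using MvPolynomial.induction_on' with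
  | add g1 g2 h1 h2 =>
    intro a ha
    rw [map_add, coeff_add] at ha
    by_cases h : coeff a (lev N g1) = 0
    · rw [h, zero_add] at ha
      exact h2 a ha
    · exact h1 a h
  | monomial m r =>
    intro a ha
    rw [lev_monomial] at ha
    split_ifs at ha with h
    · rw [coeff_monomial] at ha
      split_ifs at ha with h'
      · rw [← h']
        exact h
      · exact absurd rfl ha
    · exact absurd (coeff_zero a) ha

theorem expand_Sg (p : ℕ) : expand p (Sg n A) = ∑ i, (X i : Poly n A) ^ p := by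
  rw [Sg, map_sum]
  exact Finset.sum_congr rfl fun i _ => by rw [expand_X]

theorem q_hom (p : ℕ) : (expand p (Sg n A)).IsHomogeneous p := by
  rw [expand_Sg]
  refine IsHomogeneous.sum _ _ _ fun i _ => ?_
  have := (isHomogeneous_X A i).pow p
  rwa [one_mul] at this

theorem q_nzd (p : ℕ) (hp : p ≠ 0) (h : Poly n A) (hh : expand p (Sg n A) * h = 0) : h = 0 := by
  have h1 := congrArg (finSuccEquiv A n) hh
  rw [map_mul, map_zero, expand_Sg, Fin.sum_univ_succ, map_add, map_pow, finSuccEquiv_X_zero,
    map_sum] at h1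
  have h2 : ∑ x : Fin n, (finSuccEquiv A n) (X x.succ ^ p) =
      Polynomial.C (∑ x : Fin n, (X x : MvPolynomial (Fin n) A) ^ p) := by
    rw [map_sum]
    refine Finset.sum_congr rfl fun i _ => ?_
    rw [map_pow, finSuccEquiv_X_succ, ← map_pow]
  rw [h2] at h1
  have h3 := (Polynomial.monic_X_pow_add_C (∑ x : Fin n, (X x : MvPolynomial (Fin n) A) ^ p)
    hp).mem_nonZeroDivisors
  have h4 := (mul_left_mem_nonZeroDivisors_eq_zero_iff h3).1 h1
  exact (map_eq_zero_iff _ (finSuccEquiv A n).injective).1 h4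

theorem sg_hom : (Sg n A).IsHomogeneous 1 := IsHomogeneous.sum _ _ _ fun i _ => isHomogeneous_X A i

theorem inv_step {u t : A} (hu : IsUnit u) (ht : IsUnit t) :
    Ring.inverse (t * u) * t = Ring.inverse u := by
  have h1 : Ring.inverse (t * u) * (t * u) = 1 := Ring.inverse_mul_cancel _ (ht.mul hu)
  have h2 : u * Ring.inverse u = 1 := Ring.mul_inverse_cancel _ hu
  calc Ring.inverse (t * u) * t = Ring.inverse (t * u) * t * (u * Ring.inverse u) := by
        rw [h2, mul_one]
    _ = Ring.inverse (t * u) * (t * u) * Ring.inverse u := by ring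
    _ = _ := by rw [h1, one_mul]

theorem fact_unit {p : ℕ} (hu : ∀ m : ℕ, 1 ≤ m → m < p → IsUnit (m : A)) (m : ℕ) (hm : m < p) :
    IsUnit ((m.factorial : ℕ) : A) := by
  induction m with
  | zero => simp
  | succ m ih =>
    rw [Nat.factorial_succ, Nat.cast_mul]
    exact (hu (m + 1) (by omega) hm).mul (ih (by omega))

theorem shift (hIOB : IOBStmt) {p : ℕ} (hp : 2 ≤ p)
    (hu : ∀ m : ℕ, 1 ≤ m → m < p → IsUnit (m : A)) (s : ℕ) (hs : s + 1 < p) (g : Poly n A) :
    IoA (s + 1) (psi p (lev (p * (s + 1)) (expand p (Sg n A) * g))) =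
      IoA s (psi p (lev (p * s) g)) := by
  have hp0 : 0 < p := by omega
  rw [mul_add, mul_one, lev_mul (q_hom p), psi_expand_mul p hp0]
  rw [IoA, IoA, lev_mul sg_hom]
  have h1 := (hIOB.2 A n).2.1 s (lev s (psi p (lev (p * s) g))) (wt_lev _ _)
  rw [h1, Nat.add_sub_cancel]
  rcases Nat.eq_zero_or_pos s with h0 | h0
  · subst h0
    rw [lev_zero, map_zero, mul_zero, mul_zero]
  · obtain ⟨k, rfl⟩ : ∃ k, s = k + 1 := ⟨s - 1, by omega⟩
    rw [Nat.factorial_succ, Nat.cast_mul, Nat.add_sub_cancel, ← mul_assoc,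
      inv_step (fact_unit hu k (by omega)) (hu (k + 1) (by omega) (by omega))]

end WFmod

open WFmod in
theorem WF_proof (hIOB : IOBStmt) : WFStmt := by
  intro A _ n p hp hu w hw hmem
  classical
  have hp0 : p ≠ 0 := by omega
  rw [Ideal.mem_span_singleton'] at hmem
  obtain ⟨v, hv⟩ := hmem
  set q := expand p (Sg n A) with hq
  have hc0 : w.coeff 0 = v.coeff 0 := by
    rw [← hv, mul_sub, mul_one, ← mul_assoc, Polynomial.coeff_sub, Polynomial.coeff_mul_X_zero,
      sub_zero]
  have hcs : ∀ s, w.coeff (s + 1) = v.coeff (s + 1) - q * v.coeff s := by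
    intro s
    rw [← hv, mul_sub, mul_one, ← mul_assoc, Polynomial.coeff_sub, Polynomial.coeff_mul_X,
      Polynomial.coeff_mul_C, mul_comm q]
  have hvd : ∀ s, w.natDegree ≤ s → v.coeff s = 0 := by
    intro s hs
    by_cases hv0 : v = 0
    · rw [hv0, Polynomial.coeff_zero]
    have h1 : w.coeff (v.natDegree + 1) ≠ 0 := by
      rw [hcs, Polynomial.coeff_eq_zero_of_natDegree_lt (Nat.lt_succ_self _), zero_sub, neg_ne_zero]
      intro h
      exact hv0 (Polynomial.leadingCoeff_eq_zero.1 (q_nzd p hp0 _ h))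
    have h2 := Polynomial.le_natDegree_of_ne_zero h1
    exact Polynomial.coeff_eq_zero_of_natDegree_lt (by omega)
  have hsum : ∀ k, k ≤ w.natDegree → ∑ s ∈ range (k + 1), IoA s (psi p (lev (p * s) (w.coeff s))) =
      IoA k (psi p (lev (p * k) (v.coeff k))) := by
    intro k
    induction k with
    | zero =>
      intro _
      rw [Finset.sum_range_one, hc0]
    | succ k ih =>
      intro hk
      rw [Finset.sum_range_succ, ih (by omega), hcs]
      have h1 := shift hIOB hp hu k (by omega) (v.coeff k)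
      have h2 : ∀ x y : Poly n A, IoA (k + 1) (x - y) = IoA (k + 1) x - IoA (k + 1) y := by
        intro x y
        rw [IoA, IoA, IoA, map_sub, map_sub, mul_sub]
      rw [map_sub, map_sub, h2, h1]
      ring
  have h0 : ∀ s, IoA s (psi p (lev (p * s) (0 : Poly n A))) = 0 := by
    intro s
    rw [map_zero, map_zero, IoA, map_zero, map_zero, mul_zero]
  rw [WF, Polynomial.sum_over_range (f := fun s h => IoA s (psi p (lev (p * s) h))) _ h0,
    hsum _ le_rfl, hvd _ le_rfl, h0]

end Pool.CUBE
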