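import Pool.Agent.H50.CUBE.D1

set_option autoImplicit false
set_option linter.unusedVariables false

/-! Cube project, block D: the expansions of `E(x)` at `0` and at `∞`. -/

open Polynomial

namespace Pool.CUBE.D

open Pool.CM

section
variable {E : Type} [Field E]

theorem aeval_ratX (g : E[X]) : aeval (RatFunc.X : RatFunc E) g = algebraMap E[X] (RatFunc E) g := by
  have h : (aeval (RatFunc.X : RatFunc E)) = IsScalarTower.toAlgHom E E[X] (RatFunc E) := by
    apply Polynomial.algHom_ext
    rw [aeval_X, IsScalarTower.toAlgHom_apply, RatFunc.algebraMap_X]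
  rw [h]
  rfl

theorem exP_C (c : E) : exP E (C c) = HahnSeries.C c := by
  ext k
  rcases lt_or_ge k 0 with hk | hk
  · rw [exP_coeff_neg _ _ hk, HahnSeries.C_apply, HahnSeries.coeff_single_of_ne hk.ne]
  · obtain ⟨n, rfl⟩ := Int.eq_ofNat_of_zero_le hk
    rw [exP_coeff_nat, coeff_C, HahnSeries.C_apply]
    by_cases hn : n = 0
    · subst hn
      simp
    · rw [if_neg hn, HahnSeries.coeff_single_of_ne (by exact_mod_cast hn)]

theorem exP_X : exP E X = HahnSeries.single 1 1 := by
  ext k
  rcases lt_or_ge k 0 with hk | hk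
  · rw [exP_coeff_neg _ _ hk, HahnSeries.coeff_single_of_ne (by omega)]
  · obtain ⟨n, rfl⟩ := Int.eq_ofNat_of_zero_le hk
    rw [exP_coeff_nat, coeff_X]
    by_cases hn : 1 = n
    · subst hn
      simp
    · rw [if_neg hn, HahnSeries.coeff_single_of_ne (by omega)]

/-- the substitution `x ↦ 1 / x` on polynomials -/
noncomputable def infP (E : Type) [Field E] : E[X] →+* LaurentSeries E :=
  eval₂RingHom (HahnSeries.C : E →+* LaurentSeries E) (HahnSeries.single (-1) 1)

theorem infP_coeff (g : E[X]) (n : ℕ) : (infP E g).coeff (-(n : ℤ)) = g.coeff n := by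
  have h1 : infP E g = ∑ k ∈ Finset.range (g.natDegree + 1),
      HahnSeries.single (-(k : ℤ)) (g.coeff k) := by
    change eval₂ _ _ g = _
    rw [eval₂_eq_sum_range]
    refine Finset.sum_congr rfl fun k _ => ?_
    rw [HahnSeries.single_pow, HahnSeries.C_apply, HahnSeries.single_mul_single]
    congr 1
    · simp
    · simp
  rw [h1, HahnSeries.coeff_sum]
  by_cases hn : n < g.natDegree + 1
  · rw [Finset.sum_eq_single_of_mem n (Finset.mem_range.mpr hn)]
    · simp
    · intro k _ hk
      rw [HahnSeries.coeff_single_of_ne (by omega)]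
  · rw [coeff_eq_zero_of_natDegree_lt (by omega)]
    refine Finset.sum_eq_zero fun k hk => ?_
    have := Finset.mem_range.mp hk
    rw [HahnSeries.coeff_single_of_ne (by omega)]

theorem infP_injective : Function.Injective (infP E) := by
  intro g h hgh
  ext n
  rw [← infP_coeff, ← infP_coeff, hgh]

theorem infP_le : nonZeroDivisors E[X] ≤ (nonZeroDivisors (LaurentSeries E)).comap (infP E) := by
  intro g hg
  rw [Submonoid.mem_comap, mem_nonZeroDivisors_iff_ne_zero]
  rw [mem_nonZeroDivisors_iff_ne_zero] at hg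
  intro h
  exact hg (infP_injective (by rw [h, map_zero]))

/-- the expansion of a rational function at `∞`, in the variable `1 / x` -/
noncomputable def exInf (E : Type) [Field E] : RatFunc E →+* LaurentSeries E :=
  RatFunc.liftRingHom (infP E) infP_le

theorem exInf_algebraMap (g : E[X]) : exInf E (algebraMap E[X] (RatFunc E) g) = infP E g :=
  RatFunc.liftRingHom_algebraMap _ _ _

theorem exInf_C (c : E) : exInf E (algebraMap E (RatFunc E) c) = HahnSeries.C c := by
  have h1 : algebraMap E (RatFunc E) c = algebraMap E[X] (RatFunc E) (C c) := rfl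
  rw [h1, exInf_algebraMap]
  change eval₂ _ _ (C c) = _
  rw [eval₂_C]

theorem exInf_X : exInf E RatFunc.X = HahnSeries.single (-1) 1 := by
  rw [← RatFunc.algebraMap_X, exInf_algebraMap]
  change eval₂ _ _ X = _
  rw [eval₂_X]

theorem aeval_inv_reflect (g : E[X]) (d : ℕ) (hd : g.natDegree ≤ d) :
    aeval (RatFunc.X : RatFunc E)⁻¹ (reflect d g) * RatFunc.X ^ d =
      algebraMap E[X] (RatFunc E) g := by
  have hX : (RatFunc.X : RatFunc E) ≠ 0 := RatFunc.X_ne_zero
  let _ : Invertible (RatFunc.X : RatFunc E) := invertibleOfNonzero hX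
  have h := eval₂_reflect_mul_pow (algebraMap E (RatFunc E)) (RatFunc.X : RatFunc E) d g hd
  rw [← aeval_ratX]
  rw [aeval_def, aeval_def, ← h]
  congr 2

end

section
variable {X : Idx} {E : Type} [Field E] (A : PF X E)

theorem X_un (i : X.I) : A.ext.Un i (RatFunc.X : RatFunc E) := by
  have hX : (RatFunc.X : RatFunc E) ≠ 0 := RatFunc.X_ne_zero
  have hint : A.Int i (Polynomial.X : E[X]) := by
    intro n
    rw [coeff_X]
    split
    · exact (A.O i).one_mem
    · exact (A.O i).zero_mem
  have hprim : A.Prim i (Polynomial.X : E[X]) :=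
    ⟨hint, 1, by rw [coeff_X_one]; exact ⟨one_ne_zero, (A.O i).one_mem, by
      rw [inv_one]; exact (A.O i).one_mem⟩⟩
  refine ⟨hX, ⟨Polynomial.X, hint, 1, (A.primS i).one_mem, ?_⟩,
    ⟨1, PF.Int.one A, Polynomial.X, Submonoid.subset_closure hprim, ?_⟩⟩
  · rw [map_one, mul_one, RatFunc.algebraMap_X]
  · rw [map_one, RatFunc.algebraMap_X, inv_mul_cancel₀ hX]

theorem phi_X (i : X.I) : A.ext.phi i (RatFunc.X : RatFunc E) = RatFunc.X ^ X.p i := by
  change phiR (A.phi i) (X.p i) (X.hp i).pos _ = _
  rw [← RatFunc.algebraMap_X, phiR_algebraMap, phiP_apply, map_X, expand_X, map_pow]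

variable (hA : A.Ax)

/-- expansion at `0` -/
noncomputable def exn0 : Exn A where
  lam := RatFunc.X
  ex := ex E
  exC c := by
    have h1 : algebraMap E (RatFunc E) c = algebraMap E[X] (RatFunc E) (C c) := rfl
    rw [h1, ex_algebraMap, exP_C]
  exl := by rw [← RatFunc.algebraMap_X, ex_algebraMap, exP_X]
  lU i := X_un A i
  lphi i := phi_X A i
  gen x := by
    obtain ⟨g, h, hh, rfl⟩ := IsFractionRing.div_surjective (A := E[X]) x
    have hh0 : algebraMap E[X] (RatFunc E) h ≠ 0 := by
      intro h0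
      exact nonZeroDivisors.coe_ne_zero ⟨h, hh⟩
        ((IsFractionRing.injective E[X] (RatFunc E)) (by rw [h0, map_zero]))
    refine ⟨g, h, by rwa [aeval_ratX], ?_⟩
    rw [aeval_ratX, aeval_ratX, div_mul_cancel₀ _ hh0]
  sh := 0
  polf i d x hx := by
    obtain ⟨g, hg, rfl⟩ := hx
    refine ⟨g, fun n => hA.pol_O i d _ (hg.2 n), hg.1, ?_⟩
    rw [aeval_ratX, zero_mul, pow_zero, mul_one]

/-- expansion at `∞` -/
noncomputable def exnInf : Exn A where
  lam := RatFunc.X⁻¹
  ex := exInf E
  exC c := exInf_C c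
  exl := by
    rw [map_inv₀, exInf_X]
    refine inv_eq_of_mul_eq_one_left ?_
    rw [HahnSeries.single_mul_single]
    simp
  lU i := ⟨inv_ne_zero (X_un A i).1, (X_un A i).2.2, by rw [inv_inv]; exact (X_un A i).2.1⟩
  lphi i := by rw [map_inv₀, phi_X, inv_pow]
  gen x := by
    obtain ⟨g, h, hh, rfl⟩ := IsFractionRing.div_surjective (A := E[X]) x
    have hh0 : algebraMap E[X] (RatFunc E) h ≠ 0 := by
      intro h0
      exact nonZeroDivisors.coe_ne_zero ⟨h, hh⟩
        ((IsFractionRing.injective E[X] (RatFunc E)) (by rw [h0, map_zero]))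
    set d := max g.natDegree h.natDegree with hd
    have hg := aeval_inv_reflect g d (le_max_left _ _)
    have hh2 := aeval_inv_reflect h d (le_max_right _ _)
    refine ⟨reflect d g, reflect d h, ?_, ?_⟩
    · intro h0
      rw [h0, zero_mul] at hh2
      exact hh0 hh2.symm
    · have hX : (RatFunc.X : RatFunc E) ^ d ≠ 0 := pow_ne_zero _ RatFunc.X_ne_zero
      apply mul_right_cancel₀ hX
      rw [hg, mul_assoc, hh2, div_mul_cancel₀ _ hh0]
  sh := 1
  polf i d x hx := by
    obtain ⟨g, hg, rfl⟩ := hx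
    have hg2 := aeval_inv_reflect g d hg.1
    have hX : (RatFunc.X : RatFunc E) ^ d ≠ 0 := pow_ne_zero _ RatFunc.X_ne_zero
    refine ⟨reflect d g, fun n => ?_, natDegree_reflect_le.trans (max_le le_rfl hg.1), ?_⟩
    · rw [coeff_reflect]
      exact hA.pol_O i d _ (hg.2 _)
    · rw [one_mul, inv_pow, ← hg2, mul_assoc, mul_inv_cancel₀ hX, mul_one]

end

end Pool.CUBE.D
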