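import Pool.Agent.H50.CUBE.D7
import Pool.Agent.H10.CM.All
import Pool.Agent.H91.CUBE.FunLim

set_option autoImplicit false
set_option linter.unusedVariables false
set_option linter.unusedSectionVars false

/-! Cube project, block D: the quotient of a direct sum of packages, in the form used in the end
game (`QPKG`), and positivity for one package, with helper91's multiplied compatibility `MC`. -/

namespace Pool.CUBE.D

open Matrix Pool.CM Pool.H93.Cube Pool.CM.FUN

section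
variable {X : Idx} {E : Type} [Field E]

/-- The admissible test groups: expansion at infinity or at zero. -/
structure Adm (A : PF X E) (Z : Exn A) (T : TG A.ext (LaurentSeries E)) : Prop where
  ι : ∀ x, T.ι x = Z.ex x
  φ : ∀ i f, T.φ i f = Pool.H93.Cube.phiL (A.phi i) (X.p i) (X.hp i).ne_zero f
  Z : ∀ i M L f, f ∈ T.Z i M L → ∀ k : ℤ, k ≤ L → f.coeff k ∈ pI (A.O i) (X.p i) M

theorem adm_inf (A : PF X E) (hA : A.Ax) :
    Adm A (exnInf A hA) (TG.inf A hA) where
  ι x := rfl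
  φ i f := (phiL_eq (A.phi i) (X.p i) (X.hp i).ne_zero f).symm
  Z i M L f hf k hk := hf k hk

theorem adm_zero (A : PF X E) (hA : A.Ax) (hX : XPHStmt) :
    Adm A (exn0 A hA) ((TG.base A hA).lau hX) where
  ι x := by
    change (mapL (RingHom.id E)).comp (ex E) x = ex E x
    ext k
    rfl
  φ i f := (phiL_eq (A.phi i) (X.p i) (X.hp i).ne_zero f).symm
  Z i M L f hf k hk := hf k hk

theorem Adm.mcomp {A : PF X E} {Z : Exn A} {T : TG A.ext (LaurentSeries E)} (h : Adm A Z T)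
    {i : X.I} {m : Type} [Fintype m] {n M C : ℕ} {L : ℤ} {δ : m → LaurentSeries E}
    {Ph : Matrix m m (RatFunc E)} (hm : MC T i n M (X.p i * L) (C * X.p i) δ Ph) :
    MComp Z i n M C L δ Ph.transpose := by
  obtain ⟨g, hg, h1, h2⟩ := hm
  refine ⟨g, hg, fun a b => h1 b a, fun b k hk => ?_⟩
  have h3 := h.Z i M _ _ (h2 b) k hk
  have h4 : (HahnSeries.C ((X.p i : E) ^ n) : LaurentSeries E) = (X.p i : LaurentSeries E) ^ n := by
    rw [map_pow, map_natCast]
  have h5 : Z.ex g * (∑ a, Pool.H93.Cube.phiL (A.phi i) (X.p i) (X.hp i).ne_zero (δ a) *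
      Z.ex (Ph.transpose a b) - HahnSeries.C ((X.p i : E) ^ n) * δ b) =
      T.ι g * (∑ c, T.φ i (δ c) * T.ι (Ph b c) - (X.p i : LaurentSeries E) ^ n * δ b) := by
    rw [h.ι, h4]
    congr 2
    exact Finset.sum_congr rfl fun a _ => by rw [h.φ, h.ι, Matrix.transpose_apply]
  rw [h5]
  exact h3

theorem FrobS.of_frob {F : Type} [Field F] {B : PF X F} {m : Type} [Fintype m] [DecidableEq m]
    {G : B.J → Matrix m m F} {chi : m → F} {e : m} {n : ℕ} {i : X.I} {M C : ℕ}
    {Phi Phi' : Matrix m m F} (h : Frob B G chi e n i M C Phi Phi') :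
    FrobS B G (fun _ : Unit => chi) (fun _ => e) n i M C Phi Phi' where
  t1 := h.t1
  t2 := h.t2
  m1 := h.m1
  m2 := h.m2
  h1 := h.h1
  h2 := h.h2
  col _ := h.col
  gap a b := by
    have := h.gap a b
    simpa using this

/-- **Positivity for one package** (used in `T2`): `chi` kills the kernel of a compatible
functional `δ` with `δ e ≠ 0`. -/
theorem pos1 {A : PF X E} (hA : A.Ax) (Z : Exn A) (T : TG A.ext (LaurentSeries E))
    (hT : Adm A Z T) {m : Type} [Fintype m] [DecidableEq m]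
    (G : A.ext.J → Matrix m m (RatFunc E)) (chi : m → RatFunc E) (e : m) (n : ℕ)
    (δ : m → LaurentSeries E) (hδ : δ e ≠ 0)
    (hF : ∀ M, ∃ C, ∀ L : ℤ, X.Ev fun i => ∃ Phi Phi' : Matrix m m (RatFunc E),
      Frob A.ext G chi e n i M C Phi Phi' ∧ MC T i n M (X.p i * L) (C * X.p i) δ Phi')
    (w : m → RatFunc E) (hw : ∑ b, δ b * Z.ex (w b) = 0) : ∑ b, chi b * w b = 0 := by
  classical
  have hA' := Pool.CM.All.ext X E A hA
  have hsingle : ∑ b, δ b * Z.ex ((Pi.single e 1 : m → RatFunc E) b) = δ e := by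
    rw [Finset.sum_eq_single e]
    · simp
    · intro b _ hb
      rw [Pi.single_eq_of_ne hb, map_zero, mul_zero]
    · intro h
      exact absurd (Finset.mem_univ _) h
  obtain ⟨q, eQ, R, S, hRS, hR, hRe⟩ := exists_quot' (kerδ Z δ) (Pi.single e 1) (by
    intro h
    have h1 : ∑ b, δ b * Z.ex ((Pi.single e 1 : m → RatFunc E) b) = 0 := h
    rw [hsingle] at h1
    exact hδ h1)
  have hR : ∀ w, R *ᵥ w = 0 ↔ ∑ b, δ b * Z.ex (w b) = 0 := hR
  obtain ⟨C, hC⟩ := hF (2 * n + 1)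
  have key := positivity hA hA' Z δ R S hRS hR n C (κ := Unit) (fun _ => Pi.single e 1)
    (fun _ => chi) (Pi.single eQ 1) ?_ (fun _ => hRe) ?_ w hw
  · simpa using key
  · intro h
    have := congrFun h eQ
    rw [Pi.single_eq_same, Pi.zero_apply] at this
    exact one_ne_zero this
  · intro L
    refine (hC L).mono ?_
    rintro i ⟨Phi, Phi', hFr, hMC⟩
    have tcl := Pool.CM.All.tcl X _ A.ext hA' i
    refine ⟨Phi, Phi'.transpose, ⟨fun a b => tcl.1 _ _ (hFr.t1 a b),
      fun a b => tcl.1 _ _ (hFr.t2 b a), hFr.m2, hFr.m1⟩, hT.mcomp hMC, fun a b => ?_⟩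
    have h1 := hFr.gap a b
    have h2 : ∑ _σ : Unit, (Pi.single e 1 : m → RatFunc E) a * A.ext.phi i (chi b) =
        (if a = e then A.ext.phi i (chi b) else 0) := by
      rw [Fintype.sum_unique, Pi.single_apply]
      split <;> simp
    rw [h2]
    exact h1

end

section sum
variable {X : Idx} {F : Type} [Field F] {S : Type} [Fintype S] [DecidableEq S] {m : S → Type}
  [∀ σ, Fintype (m σ)] [∀ σ, DecidableEq (m σ)]

theorem cong_bd {O : Subring F} {p M : ℕ} (Y Y' : ∀ σ, Matrix (m σ) (m σ) F)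
    (h : ∀ σ, Cong O p M (Y σ) (Y' σ)) :
    Cong O p M (blockDiagonal' Y) (blockDiagonal' Y') := by
  rintro ⟨σ, a⟩ ⟨τ, b⟩
  by_cases hst : σ = τ
  · subst hst
    rw [blockDiagonal'_apply_eq, blockDiagonal'_apply_eq]
    exact h σ a b
  · rw [blockDiagonal'_apply_ne _ _ _ hst, blockDiagonal'_apply_ne _ _ _ hst, sub_zero]
    exact zero_mem _

theorem frob_sum {B : PF X F} (hB : B.Ax) (G : ∀ σ, B.J → Matrix (m σ) (m σ) F)
    (chi : ∀ σ, m σ → F) (e : ∀ σ, m σ) (n : ℕ) (i : X.I) (M C : ℕ)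
    (Phi Phi' : ∀ σ, Matrix (m σ) (m σ) F)
    (h : ∀ σ, Frob B (G σ) (chi σ) (e σ) n i M C (Phi σ) (Phi' σ)) :
    FrobS B (fun j => blockDiagonal' fun σ => G σ j)
      (fun σ (x : Σ σ, m σ) => if x.1 = σ then chi x.1 x.2 else 0) (fun σ => ⟨σ, e σ⟩) n i M C
      (blockDiagonal' Phi) (blockDiagonal' Phi') where
  t1 := by
    rintro ⟨σ, a⟩ ⟨τ, b⟩
    by_cases hst : σ = τ
    · subst hst
      rw [blockDiagonal'_apply_eq]
      exact (h σ).t1 a b
    · rw [blockDiagonal'_apply_ne _ _ _ hst]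
      exact (Pool.CM.All.tcl X _ B hB i).2.1 _ _ (Nat.zero_le _) (t_zero hB)
  t2 := by
    rintro ⟨σ, a⟩ ⟨τ, b⟩
    by_cases hst : σ = τ
    · subst hst
      rw [blockDiagonal'_apply_eq]
      exact (h σ).t2 a b
    · rw [blockDiagonal'_apply_ne _ _ _ hst]
      exact (Pool.CM.All.tcl X _ B hB i).2.1 _ _ (Nat.zero_le _) (t_zero hB)
  m1 := by
    have := cong_bd _ _ fun σ => (h σ).m1
    rw [blockDiagonal'_mul, ← blockDiagonal'_transpose] at this
    convert this using 1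
    ext ⟨σ, a⟩ ⟨τ, b⟩
    by_cases hst : σ = τ
    · subst hst
      rw [blockDiagonal'_apply_eq, Matrix.smul_apply, Matrix.smul_apply, Matrix.one_apply,
        Matrix.one_apply]
      simp
    · rw [blockDiagonal'_apply_ne _ _ _ hst, Matrix.smul_apply, Matrix.one_apply_ne, smul_zero]
      intro h0
      exact hst (congrArg Sigma.fst h0)
  m2 := by
    have := cong_bd _ _ fun σ => (h σ).m2
    rw [blockDiagonal'_mul, ← blockDiagonal'_transpose] at this
    convert this using 1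
    ext ⟨σ, a⟩ ⟨τ, b⟩
    by_cases hst : σ = τ
    · subst hst
      rw [blockDiagonal'_apply_eq, Matrix.smul_apply, Matrix.smul_apply, Matrix.one_apply,
        Matrix.one_apply]
      simp
    · rw [blockDiagonal'_apply_ne _ _ _ hst, Matrix.smul_apply, Matrix.one_apply_ne, smul_zero]
      intro h0
      exact hst (congrArg Sigma.fst h0)
  h1 j := by
    have := cong_bd _ _ fun σ => (h σ).h1 j
    rw [show (fun σ => (X.p i : F) • (Phi σ * (G σ j).map (B.phi i))) =
      (X.p i : F) • (fun σ => (Phi σ * (G σ j).map (B.phi i))) from rfl,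
      blockDiagonal'_smul, blockDiagonal'_mul] at this
    rw [show (fun σ => (Phi σ).map (B.D j) + G σ j * Phi σ) =
      (fun σ => (Phi σ).map (B.D j)) + (fun σ => G σ j * Phi σ) from rfl,
      blockDiagonal'_add, blockDiagonal'_mul, ← blockDiagonal'_map _ _ (map_zero _),
      ← blockDiagonal'_map _ _ (map_zero _)] at this
    exact this
  h2 j := by
    have := cong_bd _ _ fun σ => (h σ).h2 j
    have e1 : (blockDiagonal' Phi').map (B.D j) -
        (blockDiagonal' fun σ => G σ j).transpose * blockDiagonal' Phi' =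
        blockDiagonal' (fun σ => (Phi' σ).map (B.D j) - (G σ j).transpose * Phi' σ) := by
      rw [blockDiagonal'_map _ _ (map_zero _), blockDiagonal'_transpose, ← blockDiagonal'_mul,
        ← blockDiagonal'_sub]
      rfl
    have e2 : -((X.p i : F) • (blockDiagonal' Phi' *
        ((blockDiagonal' fun σ => G σ j).map (B.phi i)).transpose)) =
        blockDiagonal' (fun σ => -((X.p i : F) • (Phi' σ * ((G σ j).map (B.phi i)).transpose))) := by
      rw [blockDiagonal'_map _ _ (map_zero _), blockDiagonal'_transpose, ← blockDiagonal'_mul,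
        ← blockDiagonal'_smul, ← blockDiagonal'_neg]
      rfl
    rw [e1, e2]
    exact this
  col := by
    rintro σ ⟨τ, a⟩
    by_cases hst : τ = σ
    · subst hst
      have := (h τ).col a
      rw [blockDiagonal'_apply_eq]
      simpa using this
    · rw [blockDiagonal'_apply_ne _ _ _ hst, if_neg, sub_zero]
      · exact zero_mem _
      · intro h0
        exact hst (congrArg Sigma.fst h0)
  gap := by
    rintro ⟨τ, a⟩ ⟨τ', b⟩
    have e1 : ∑ σ, (if (⟨τ, a⟩ : Σ σ, m σ) = ⟨σ, e σ⟩ then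
        B.phi i (if τ' = σ then chi τ' b else 0) else 0) =
        if a = e τ then B.phi i (if τ' = τ then chi τ' b else 0) else 0 := by
      rw [Finset.sum_eq_single τ]
      · simp
      · intro σ _ hσ
        rw [if_neg]
        intro h0
        exact hσ (congrArg Sigma.fst h0).symm
      · intro h0
        exact absurd (Finset.mem_univ _) h0
    simp only
    rw [e1]
    by_cases hst : τ = τ'
    · subst hst
      rw [blockDiagonal'_apply_eq, if_pos rfl]
      exact (h τ).gap a b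
    · rw [blockDiagonal'_apply_ne _ _ _ hst, if_neg (Ne.symm hst), map_zero, ite_self, sub_zero]
      exact zero_mem _

theorem den_prod {B : PF X F} (hB : B.Ax) {i : X.I} {d : ℕ} {κ : Type} (s : Finset κ)
    (h : κ → F) (hh : ∀ k ∈ s, h k ∈ B.den i d) : ∏ k ∈ s, h k ∈ B.den i (s.card * d) := by
  classical
  induction s using Finset.induction_on with
  | empty =>
    rw [Finset.prod_empty, Finset.card_empty, zero_mul]
    exact hB.den_one i
  | insert a s ha ih =>
    rw [Finset.prod_insert ha, Finset.card_insert_of_notMem ha,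
      show (s.card + 1) * d = d + s.card * d by ring]
    exact hB.den_mul i _ _ _ _ (hh a (Finset.mem_insert_self _ _))
      (ih fun k hk => hh k (Finset.mem_insert_of_mem hk))

end sum

section
variable {X : Idx} {E : Type} [Field E]

/-- multiplication by an element of `pol i d` shifts the truncation by `sh * d` -/
theorem pol_mul_coeff {A : PF X E} (Z : Exn A) {i : X.I} {d M : ℕ} {g : RatFunc E}
    (hg : g ∈ A.ext.pol i d) {f : LaurentSeries E} {L : ℤ}
    (hf : ∀ k ≤ L, f.coeff k ∈ pI (A.O i) (X.p i) M) (k : ℤ) (hk : k ≤ L - ((Z.sh * d : ℕ) : ℤ)) :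
    (Z.ex g * f).coeff k ∈ pI (A.O i) (X.p i) M := by
  obtain ⟨q, hq, -, hqe⟩ := Z.polf i d g hg
  have h1 : Z.ex g * f * HahnSeries.single ((Z.sh * d : ℕ) : ℤ) 1 =
      f * Z.ex (∑ j ∈ Finset.range (q.natDegree + 1),
        algebraMap E (RatFunc E) (q.coeff j) * Z.lam ^ j) := by
    rw [← aeval_range Z.lam q _ (Nat.lt_succ_self _), ← hqe, map_mul, map_pow, Z.exl,
      single_pow_one]
    ring
  have h2 : (Z.ex g * f).coeff k =
      (Z.ex g * f * HahnSeries.single ((Z.sh * d : ℕ) : ℤ) 1).coeff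
        (k + ((Z.sh * d : ℕ) : ℤ)) := by
    rw [HahnSeries.coeff_mul_single, mul_one, add_sub_cancel_right]
  have h3 := coeff_poly Z.lam Z.ex Z.exC Z.exl (fun _ : Unit => f) (q.natDegree + 1)
    (fun _ j => q.coeff j) (k + ((Z.sh * d : ℕ) : ℤ))
  rw [Fintype.sum_unique, Fintype.sum_unique] at h3
  rw [h2, h1, h3]
  refine Dv.sum _ _ fun j _ => Dv.mul_right (hf _ ?_) (hq j)
  have : (0 : ℤ) ≤ (j : ℤ) := by positivity
  linarith

/-- multiplied compatibility of a direct sum -/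
theorem mcomp_sum {A : PF X E} (hA' : A.ext.Ax) (Z : Exn A) {S : Type} [Fintype S]
    [DecidableEq S] {m : S → Type} [∀ σ, Fintype (m σ)] [∀ σ, DecidableEq (m σ)] (i : X.I)
    (n M C : ℕ) (L : ℤ) (δ : ∀ σ, m σ → LaurentSeries E)
    (Ph : ∀ σ, Matrix (m σ) (m σ) (RatFunc E))
    (h : ∀ σ, MComp Z i n M C (L + ((Z.sh * (Fintype.card S * C) : ℕ) : ℤ)) (δ σ)
      (Ph σ).transpose) :
    MComp Z i n M (Fintype.card S * C) L (fun x : Σ σ, m σ => δ x.1 x.2)
      (blockDiagonal' Ph).transpose := by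
  classical
  choose g hg h1 h2 using h
  have hcard : ∀ σ : S, (Finset.univ.erase σ).card + 1 = Fintype.card S := by
    intro σ
    rw [Finset.card_erase_of_mem (Finset.mem_univ σ), Finset.card_univ]
    exact Nat.sub_add_cancel (Fintype.card_pos_iff.mpr ⟨σ⟩)
  have hpr : ∀ σ, ∏ τ, g τ = (∏ τ ∈ Finset.univ.erase σ, g τ) * g σ := fun σ => by
    rw [mul_comm, Finset.mul_prod_erase Finset.univ g (Finset.mem_univ σ)]
  have hden : ∀ σ, ∏ τ ∈ Finset.univ.erase σ, g τ ∈
      A.ext.den i ((Finset.univ.erase σ).card * (C * X.p i)) := fun σ =>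
    den_prod hA' _ _ fun τ _ => hg τ
  refine ⟨∏ σ, g σ, ?_, ?_, ?_⟩
  · have := den_prod hA' Finset.univ g fun σ _ => hg σ
    rwa [Finset.card_univ, ← mul_assoc] at this
  · rintro ⟨τ, b⟩ ⟨σ, a⟩
    rw [Matrix.transpose_apply]
    by_cases hst : σ = τ
    · subst hst
      rw [blockDiagonal'_apply_eq, hpr σ]
      have h3 := hA'.pol_mul i _ _ _ _ (hA'.den_pol i _ _ (hden σ)) (h1 σ b a)
      rwa [show (Finset.univ.erase σ).card * (C * X.p i) + C * X.p i =
        Fintype.card S * C * X.p i by rw [← hcard σ]; ring, ← mul_assoc] at h3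
    · rw [blockDiagonal'_apply_ne _ _ _ hst, mul_zero]
      exact zero_mem _
  · rintro ⟨σ, b⟩ k hk
    have h4 : ∑ x : Σ σ, m σ, Pool.H93.Cube.phiL (A.phi i) (X.p i) (X.hp i).ne_zero (δ x.1 x.2) *
        Z.ex ((blockDiagonal' Ph).transpose x ⟨σ, b⟩) =
        ∑ c, Pool.H93.Cube.phiL (A.phi i) (X.p i) (X.hp i).ne_zero (δ σ c) *
          Z.ex ((Ph σ).transpose c b) := by
      rw [Fintype.sum_sigma, Finset.sum_eq_single σ]
      · exact Finset.sum_congr rfl fun c _ => by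
          rw [Matrix.transpose_apply, blockDiagonal'_apply_eq, Matrix.transpose_apply]
      · intro τ _ hτ
        exact Finset.sum_eq_zero fun c _ => by
          rw [Matrix.transpose_apply, blockDiagonal'_apply_ne _ _ _ hτ.symm, map_zero, mul_zero]
      · intro h0
        exact absurd (Finset.mem_univ _) h0
    rw [h4, hpr σ, map_mul, mul_assoc]
    refine pol_mul_coeff Z (hA'.den_pol i _ _ (hden σ)) (h2 σ b) k ?_
    have h6 : Z.sh * ((Finset.univ.erase σ).card * (C * X.p i)) ≤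
        X.p i * (Z.sh * (Fintype.card S * C)) := by
      rw [show X.p i * (Z.sh * (Fintype.card S * C)) = Z.sh * (Fintype.card S * (C * X.p i)) by
        ring]
      exact Nat.mul_le_mul_left _ (Nat.mul_le_mul_right _ ((Nat.le_succ _).trans (hcard σ).le))
    have h7 : ((Z.sh * ((Finset.univ.erase σ).card * (C * X.p i)) : ℕ) : ℤ) ≤
        ((X.p i * (Z.sh * (Fintype.card S * C)) : ℕ) : ℤ) := by
      exact_mod_cast h6
    rw [mul_add]
    push_cast at h7 ⊢
    linarith

theorem FrobS.mono_C {F : Type} [Field F] {B : PF X F} (hB : B.Ax) {m κ : Type} [Fintype m]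
    [DecidableEq m] [Fintype κ] {G : B.J → Matrix m m F} {chi : κ → m → F} {e : κ → m} {n : ℕ}
    {i : X.I} {M C C' : ℕ} {Phi Phi' : Matrix m m F} (h : FrobS B G chi e n i M C Phi Phi')
    (hC : C ≤ C') : FrobS B G chi e n i M C' Phi Phi' where
  t1 a b := (Pool.CM.All.tcl X _ B hB i).2.1 _ _ (Nat.mul_le_mul_right _ hC) (h.t1 a b)
  t2 a b := (Pool.CM.All.tcl X _ B hB i).2.1 _ _ (Nat.mul_le_mul_right _ hC) (h.t2 a b)
  m1 := h.m1
  m2 := h.m2
  h1 := h.h1
  h2 := h.h2
  col := h.col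
  gap := h.gap

/-- **The quotient package theorem for a direct sum.** -/
theorem quotPkgS {A : PF X E} (hA : A.Ax) [Finite A.J] (Z : Exn A)
    {S : Type} [Fintype S] [DecidableEq S] [Nonempty S] {m : S → Type}
    [∀ σ, Fintype (m σ)] [∀ σ, DecidableEq (m σ)]
    (G : ∀ σ, A.ext.J → Matrix (m σ) (m σ) (RatFunc E)) (chi : ∀ σ, m σ → RatFunc E)
    (e : ∀ σ, m σ) (n : ℕ) (hP : ∀ σ, Pkg A.ext (G σ) (chi σ) (e σ) n)
    (δ : ∀ σ, m σ → LaurentSeries E) (hδ : ∀ σ, δ σ (e σ) = 1)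
    (hst : ∀ a (w : ∀ σ, m σ → RatFunc E), ∑ σ, ∑ b, δ σ b * Z.ex (w σ b) = 0 →
      ∑ σ, ∑ b, δ σ b * Z.ex (opF (A.ext.D a) (G σ a) (w σ) b) = 0)
    (hF : ∀ M, ∃ C, ∀ L : ℤ, X.Ev fun i => ∀ σ, ∃ Phi Phi' : Matrix (m σ) (m σ) (RatFunc E),
      Frob A.ext (G σ) (chi σ) (e σ) n i M C Phi Phi' ∧
        MComp Z i n M C L (δ σ) Phi'.transpose) :
    ∃ (q : ℕ) (eQ : Fin q) (GQ : A.ext.J → Matrix (Fin q) (Fin q) (RatFunc E))
      (chiQ : Fin q → RatFunc E) (R : ∀ σ, Matrix (Fin q) (m σ) (RatFunc E)),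
      Pkg A.ext GQ chiQ eQ n ∧
      (∀ v : ∀ σ, m σ → RatFunc E,
        ∑ σ, R σ *ᵥ v σ = 0 ↔ ∑ σ, ∑ b, δ σ b * Z.ex (v σ b) = 0) ∧
      (∀ σ a, (R σ).map (A.ext.D a) + GQ a * R σ = R σ * G σ a) ∧
      (∀ σ x, R σ x (e σ) = if x = eQ then 1 else 0) ∧
      (∀ σ b, ∑ x, chiQ x * R σ x b = chi σ b) := by
  classical
  have hA' := Pool.CM.All.ext X E A hA
  have f1 : ∀ a b, (blockDiagonal' fun σ => G σ b).map (A.ext.D a) +
      (blockDiagonal' fun σ => G σ a) * (blockDiagonal' fun σ => G σ b) =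
      (blockDiagonal' fun σ => G σ a).map (A.ext.D b) +
      (blockDiagonal' fun σ => G σ b) * (blockDiagonal' fun σ => G σ a) := by
    intro a b
    rw [blockDiagonal'_map _ _ (map_zero _), blockDiagonal'_map _ _ (map_zero _),
      ← blockDiagonal'_mul, ← blockDiagonal'_mul, ← blockDiagonal'_add, ← blockDiagonal'_add]
    congr 1
    funext σ
    exact (hP σ).flat a b
  have f2 : ∀ (σ : S) (a : A.ext.J) (x : Σ σ, m σ),
      (blockDiagonal' fun σ => G σ a) x ⟨σ, e σ⟩ = 0 := by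
    rintro σ a ⟨τ, x⟩
    by_cases hst : τ = σ
    · subst hst
      rw [blockDiagonal'_apply_eq]
      exact (hP τ).Ge a x
    · exact blockDiagonal'_apply_ne _ _ _ hst
  have f3 : ∀ σ τ : S, (if τ = σ then chi τ (e τ) else 0) = if σ = τ then 1 else 0 := by
    intro σ τ
    by_cases hst : σ = τ
    · subst hst
      rw [if_pos rfl, if_pos rfl, (hP σ).chie]
    · rw [if_neg hst, if_neg (Ne.symm hst)]
  have hop : ∀ a (w : (Σ σ, m σ) → RatFunc E) (σ : S) (b : m σ),
      opF (A.ext.D a) (blockDiagonal' fun σ => G σ a) w ⟨σ, b⟩ =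
        opF (A.ext.D a) (G σ a) (fun b => w ⟨σ, b⟩) b := by
    intro a w σ b
    rw [opF_apply, opF_apply, Fintype.sum_sigma, Finset.sum_eq_single σ]
    · congr 1
      exact Finset.sum_congr rfl fun c _ => by rw [blockDiagonal'_apply_eq]
    · intro τ _ hτ
      refine Finset.sum_eq_zero fun c _ => ?_
      rw [blockDiagonal'_apply_ne _ _ _ hτ.symm, zero_mul]
    · intro h0
      exact absurd (Finset.mem_univ _) h0
  have f4 : ∀ a (w : (Σ σ, m σ) → RatFunc E),
      ∑ b : Σ σ, m σ, δ b.1 b.2 * Z.ex (w b) = 0 →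
      ∑ b : Σ σ, m σ, δ b.1 b.2 * Z.ex (opF (A.ext.D a) (blockDiagonal' fun σ => G σ a) w b) =
        0 := by
    intro a w hw
    rw [Fintype.sum_sigma] at hw ⊢
    simp only [hop]
    exact hst a (fun σ b => w ⟨σ, b⟩) hw
  have f5 : ∀ M, ∃ C, ∀ L : ℤ, X.Ev fun i =>
      ∃ Phi Phi' : Matrix (Σ σ, m σ) (Σ σ, m σ) (RatFunc E),
      FrobS A.ext (fun j => blockDiagonal' fun σ => G σ j)
        (fun σ (x : Σ σ, m σ) => if x.1 = σ then chi x.1 x.2 else 0) (fun σ => ⟨σ, e σ⟩) n i M C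
        Phi Phi' ∧
      MComp Z i n M C L (fun x : Σ σ, m σ => δ x.1 x.2) Phi'.transpose := by
    intro M
    obtain ⟨C, hC⟩ := hF M
    refine ⟨Fintype.card S * C, fun L => ?_⟩
    refine (hC (L + ((Z.sh * (Fintype.card S * C) : ℕ) : ℤ))).mono ?_
    intro i hi
    choose Phi Phi' hFr hMC using hi
    refine ⟨blockDiagonal' Phi, blockDiagonal' Phi', ?_, ?_⟩
    · refine (frob_sum hA' G chi e n i M C Phi Phi' hFr).mono_C hA' ?_
      exact Nat.le_mul_of_pos_left C Fintype.card_pos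
    · exact mcomp_sum hA' Z i n M C L δ Phi' hMC
  obtain ⟨q, eQ, GQ, chiQ, R, h1, h2, h3, h4, h5⟩ := quotPkg Pool.CM.All.tcl Pool.CM.All.tfx hA hA' Z
    (fun j => blockDiagonal' fun σ => G σ j)
    (fun σ (x : Σ σ, m σ) => if x.1 = σ then chi x.1 x.2 else 0) (fun σ => ⟨σ, e σ⟩) n f1 f2
    (fun σ τ => f3 σ τ) (fun x : Σ σ, m σ => δ x.1 x.2) (fun σ τ => by simp only [hδ])
    (fun σ => by simp only [hδ]; exact one_ne_zero) f4 f5
  refine ⟨q, eQ, GQ, chiQ, fun σ x b => R x ⟨σ, b⟩, h1, ?_, ?_, ?_, ?_⟩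
  · intro v
    have h6 := h2 (fun x : Σ σ, m σ => v x.1 x.2)
    rw [Fintype.sum_sigma] at h6
    rw [← h6]
    have h7 : R *ᵥ (fun x : Σ σ, m σ => v x.1 x.2) =
        ∑ σ, (fun x b => R x ⟨σ, b⟩ : Matrix (Fin q) (m σ) (RatFunc E)) *ᵥ v σ := by
      funext x
      rw [Finset.sum_apply]
      simp only [Matrix.mulVec, dotProduct]
      rw [Fintype.sum_sigma]
    rw [h7]
  · intro σ a
    ext x b
    have h6 := congrFun (congrFun (h3 a) x) ⟨σ, b⟩
    rw [Matrix.add_apply, Matrix.map_apply, Matrix.mul_apply, Matrix.mul_apply,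
      Fintype.sum_sigma, Finset.sum_eq_single σ] at h6
    · simp only [blockDiagonal'_apply_eq] at h6
      exact h6
    · intro τ _ hτ
      exact Finset.sum_eq_zero fun c _ => by
        rw [blockDiagonal'_apply_ne _ _ _ hτ, mul_zero]
    · intro h0
      exact absurd (Finset.mem_univ _) h0
  · intro σ x
    exact h4 σ x
  · intro σ b
    have := h5 ⟨σ, b⟩
    simp only at this
    rw [this, Finset.sum_eq_single σ]
    · rw [if_pos rfl]
    · intro τ _ hτ
      rw [if_neg (Ne.symm hτ)]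
    · intro h0
      exact absurd (Finset.mem_univ _) h0

/-- **QPKG.** The quotient of a direct sum of packages by the kernel of a horizontal compatible
functional with `δ σ (e σ) = 1` for all `σ`. -/
theorem qpkg {A : PF X E} (hA : A.Ax) [Finite A.J] (Z : Exn A) (T : TG A.ext (LaurentSeries E))
    (hT : Adm A Z T) {S : Type} [Fintype S] [DecidableEq S] [Nonempty S] {m : S → Type}
    [∀ σ, Fintype (m σ)] [∀ σ, DecidableEq (m σ)]
    (G : ∀ σ, A.ext.J → Matrix (m σ) (m σ) (RatFunc E)) (chi : ∀ σ, m σ → RatFunc E)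
    (e : ∀ σ, m σ) (n : ℕ) (hP : ∀ σ, Pkg A.ext (G σ) (chi σ) (e σ) n)
    (δ : ∀ σ, m σ → LaurentSeries E) (hδ : ∀ σ, δ σ (e σ) = 1)
    (DK : A.ext.J → LaurentSeries E → LaurentSeries E)
    (hD0 : ∀ j, DK j 0 = 0) (hDa : ∀ j x y, DK j (x + y) = DK j x + DK j y)
    (hDm : ∀ j x y, DK j (x * y) = DK j x * y + x * DK j y)
    (hDK : ∀ j x, DK j (Z.ex x) = Z.ex (A.ext.D j x))
    (hhor : ∀ σ j b, DK j (δ σ b) = ∑ c, δ σ c * Z.ex (G σ j c b))
    (hF : ∀ M, ∃ C, ∀ L : ℤ, X.Ev fun i => ∀ σ, ∃ Phi Phi' : Matrix (m σ) (m σ) (RatFunc E),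
      Frob A.ext (G σ) (chi σ) (e σ) n i M C Phi Phi' ∧
        MC T i n M (X.p i * L) (C * X.p i) (δ σ) Phi') :
    ∃ (q : ℕ) (eQ : Fin q) (GQ : A.ext.J → Matrix (Fin q) (Fin q) (RatFunc E))
      (chiQ : Fin q → RatFunc E) (R : ∀ σ, Matrix (Fin q) (m σ) (RatFunc E)),
      Pkg A.ext GQ chiQ eQ n ∧
      (∀ v : ∀ σ, m σ → RatFunc E,
        ∑ σ, R σ *ᵥ v σ = 0 ↔ ∑ σ, ∑ b, δ σ b * Z.ex (v σ b) = 0) ∧
      (∀ σ a, (R σ).map (A.ext.D a) + GQ a * R σ = R σ * G σ a) ∧
      (∀ σ x, R σ x (e σ) = if x = eQ then 1 else 0) ∧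
      (∀ σ b, ∑ x, chiQ x * R σ x b = chi σ b) := by
  classical
  have hA' := Pool.CM.All.ext X E A hA
  refine quotPkgS hA Z G chi e n hP δ hδ ?_ ?_
  · intro a w hw
    have hDsum : ∀ (κ : Type) (s : Finset κ) (f : κ → LaurentSeries E),
        DK a (∑ b ∈ s, f b) = ∑ b ∈ s, DK a (f b) := by
      intro κ s f
      induction s using Finset.induction_on with
      | empty => simp [hD0]
      | insert x s hx ih => rw [Finset.sum_insert hx, Finset.sum_insert hx, hDa, ih]
    have h1 := congrArg (DK a) hw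
    rw [hD0, hDsum] at h1
    rw [← h1]
    refine Finset.sum_congr rfl fun σ _ => ?_
    rw [hDsum]
    simp only [hDm, hhor, hDK, opF_apply, map_add, map_sum, mul_add, Finset.sum_add_distrib]
    rw [add_comm]
    congr 1
    simp only [Finset.sum_mul, Finset.mul_sum]
    rw [Finset.sum_comm]
    refine Finset.sum_congr rfl fun c _ => Finset.sum_congr rfl fun b _ => ?_
    rw [map_mul]
    ring
  · intro M
    obtain ⟨C, hC⟩ := hF M
    refine ⟨C, fun L => (hC L).mono fun i hi σ => ?_⟩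
    obtain ⟨Phi, Phi', h1, h2⟩ := hi σ
    exact ⟨Phi, Phi', h1, hT.mcomp h2⟩

end

end Pool.CUBE.D
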