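import Mathlib

set_option linter.unusedVariables false

/-! Cube project, block A: the integral over the cube as an algebraic functional. -/

namespace Pool.Cube

open MvPolynomial MeasureTheory

universe u v

/-- The integral over the unit cube as an algebraic functional on polynomials over a
`ℚ`-algebra: `x ^ a` goes to `∏ i, 1 / (a i + 1)`. -/
noncomputable def I {n : ℕ} (K : Type u) [CommRing K] [Algebra ℚ K] :
    MvPolynomial (Fin n) K →ₗ[K] K :=
  (basisMonomials (Fin n) K).constr K
    (fun a => algebraMap ℚ K (∏ i, (((a i : ℕ) : ℚ) + 1)⁻¹))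

theorem I_monomial {n : ℕ} {K : Type u} [CommRing K] [Algebra ℚ K] (a : Fin n →₀ ℕ) (c : K) :
    I K (monomial a c) = c * algebraMap ℚ K (∏ i, (((a i : ℕ) : ℚ) + 1)⁻¹) := by
  have h : monomial a c = c • basisMonomials (Fin n) K a := by
    rw [coe_basisMonomials, smul_monomial, smul_eq_mul, mul_one]
  rw [h, map_smul, smul_eq_mul, I, Module.Basis.constr_basis]

theorem I_map {n : ℕ} {K : Type u} {L : Type v} [CommRing K] [Algebra ℚ K] [CommRing L]
    [Algebra ℚ L] (φ : K →+* L) (f : MvPolynomial (Fin n) K) :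
    I L (map φ f) = φ (I K f) := by
  induction f using MvPolynomial.induction_on' with
  | monomial a c =>
    rw [map_monomial, I_monomial, I_monomial, map_mul]
    congr 1
    exact (RingHom.congr_fun (Subsingleton.elim (algebraMap ℚ L)
      (φ.comp (algebraMap ℚ K))) _)
  | add p q hp hq => rw [map_add, map_add, hp, hq, map_add, map_add]

theorem int1 (k : ℕ) :
    ∫ x in Set.Icc (0 : ℝ) 1, ((x : ℝ) : ℂ) ^ k = ((k : ℂ) + 1)⁻¹ := by
  have h : ∀ x : ℝ, ((x : ℝ) : ℂ) ^ k = ((x ^ k : ℝ) : ℂ) := fun x => by push_cast; rfl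
  simp_rw [h]
  rw [integral_Icc_eq_integral_Ioc, ← intervalIntegral.integral_of_le zero_le_one,
    intervalIntegral.integral_ofReal, integral_pow]
  simp

theorem integral_eq {n : ℕ} (f : MvPolynomial (Fin n) ℂ) :
    ∫ x in Set.Icc (0 : Fin n → ℝ) 1, eval (fun i => ((x i : ℝ) : ℂ)) f = I ℂ f := by
  have hcont : ∀ p : MvPolynomial (Fin n) ℂ,
      Continuous (fun x : Fin n → ℝ => eval (fun i => ((x i : ℝ) : ℂ)) p) := by
    intro p
    exact (MvPolynomial.continuous_eval p).comp
      (continuous_pi fun i => Complex.continuous_ofReal.comp (continuous_apply i))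
  induction f using MvPolynomial.induction_on' with
  | monomial a c =>
    rw [I_monomial]
    have h1 : ∀ x : Fin n → ℝ, eval (fun i => ((x i : ℝ) : ℂ)) (monomial a c) =
        c * ∏ i, ((x i : ℝ) : ℂ) ^ (a i) := by
      intro x
      rw [eval_monomial, Finsupp.prod_fintype _ _ (fun i => pow_zero _)]
    simp_rw [h1]
    rw [integral_const_mul]
    congr 1
    have h2 : (volume.restrict (Set.Icc (0 : Fin n → ℝ) 1)) =
        Measure.pi (fun _ : Fin n => (volume : Measure ℝ).restrict (Set.Icc (0 : ℝ) 1)) := by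
      rw [← Measure.restrict_pi_pi, ← volume_pi]
      congr 1
      rw [Set.pi_univ_Icc]
      rfl
    rw [h2, integral_fintype_prod_eq_prod (fun i (x : ℝ) => ((x : ℝ) : ℂ) ^ (a i))]
    simp_rw [int1]
    simp
  | add p q hp hq =>
    simp_rw [map_add]
    rw [integral_add, hp, hq]
    · exact (hcont p).integrableOn_Icc
    · exact (hcont q).integrableOn_Icc

end Pool.Cube
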