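import Pool.Agent.H50.CUBE.A1

set_option linter.unusedVariables false

/-! Cube project, block A: reduction to number fields. -/

namespace Pool.Cube

open MvPolynomial

universe u v

/-- All moments `I (f ^ m)`, `m ≥ 1`, vanish. -/
def Bad {n : ℕ} {K : Type u} [CommRing K] [Algebra ℚ K] (f : MvPolynomial (Fin n) K) : Prop :=
  ∀ m : ℕ, 1 ≤ m → I K (f ^ m) = 0

namespace A2

variable {n : ℕ} (S : Finset (Fin n →₀ ℕ))

/-- The generic polynomial with support in `S`. -/
noncomputable def gen : MvPolynomial (Fin n) (MvPolynomial S ℚ) :=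
  ∑ a : S, monomial a.1 (X a)

theorem map_gen {K : Type u} [CommRing K] (φ : MvPolynomial S ℚ →+* K) :
    MvPolynomial.map φ (gen S) = ∑ a : S, monomial a.1 (φ (X a)) := by
  rw [gen, map_sum]
  simp_rw [map_monomial]

theorem coeff_map_gen {K : Type u} [CommRing K] (φ : MvPolynomial S ℚ →+* K) (a : S) :
    coeff a.1 (MvPolynomial.map φ (gen S)) = φ (X a) := by
  classical
  rw [map_gen, coeff_sum]
  simp_rw [coeff_monomial]
  rw [Finset.sum_eq_single a]
  · simp
  · intro b _ hb
    rw [if_neg]
    intro h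
    exact hb (Subtype.ext h)
  · intro h
    exact absurd (Finset.mem_univ a) h

theorem map_gen_coeff (f : MvPolynomial (Fin n) ℂ) (φ : MvPolynomial f.support ℚ →+* ℂ)
    (hφ : ∀ a : f.support, φ (X a) = coeff a.1 f) :
    MvPolynomial.map φ (gen f.support) = f := by
  rw [map_gen]
  simp_rw [hφ]
  rw [Finset.sum_coe_sort f.support (fun a => monomial a (coeff a f))]
  exact (MvPolynomial.as_sum f).symm

end A2

open A2 in
theorem exists_numberField {n : ℕ} (f : MvPolynomial (Fin n) ℂ) (hf : f ≠ 0) (hb : Bad f) :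
    ∃ (K : Type) (_ : Field K) (_ : NumberField K) (g : MvPolynomial (Fin n) K),
      g ≠ 0 ∧ Bad g := by
  classical
  obtain ⟨a0, ha0⟩ : ∃ a, a ∈ f.support := by
    by_contra h
    push Not at h
    exact hf (MvPolynomial.support_eq_empty.mp (Finset.eq_empty_of_forall_notMem h))
  set A := MvPolynomial f.support ℚ
  let F := gen f.support
  let J : Ideal A := Ideal.span {q | ∃ m : ℕ, 1 ≤ m ∧ q = I A (F ^ m)}
  let c : f.support → ℂ := fun a => coeff a.1 f
  have hmapc : MvPolynomial.map (aeval c : A →ₐ[ℚ] ℂ).toRingHom F = f :=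
    map_gen_coeff f _ (fun a => by
      show (aeval c) (X a) = _
      rw [aeval_X])
  have hJc : ∀ q ∈ J, (aeval c : A →ₐ[ℚ] ℂ) q = 0 := by
    intro q hq
    have : J ≤ RingHom.ker (aeval c : A →ₐ[ℚ] ℂ).toRingHom := by
      rw [Ideal.span_le]
      rintro q ⟨m, hm, rfl⟩
      rw [SetLike.mem_coe, RingHom.mem_ker, ← I_map, map_pow, hmapc]
      exact hb m hm
    exact this hq
  have hrad : (X ⟨a0, ha0⟩ : A) ∉ J.radical := by
    rintro ⟨k, hk⟩
    have := hJc _ hk
    rw [map_pow, aeval_X] at this
    exact (MvPolynomial.mem_support_iff.mp ha0) (by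
      by_contra hne
      exact pow_ne_zero k hne this)
  rw [← vanishingIdeal_zeroLocus_eq_radical (K := AlgebraicClosure ℚ), mem_vanishingIdeal_iff]
    at hrad
  push Not at hrad
  obtain ⟨x, hx, hx0⟩ := hrad
  rw [aeval_X] at hx0
  let L := IntermediateField.adjoin ℚ (Set.range x)
  have hfin : FiniteDimensional ℚ L := by
    apply IntermediateField.finiteDimensional_adjoin
    intro y _
    exact ((AlgebraicClosure.isAlgebraic ℚ).isAlgebraic y).isIntegral
  have hNF : NumberField L :=
    { to_charZero := inferInstance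
      to_finiteDimensional := by convert hfin }
  let x' : f.support → L := fun a =>
    ⟨x a, IntermediateField.subset_adjoin ℚ _ (Set.mem_range_self a)⟩
  let φ : A →+* L := (aeval x' : A →ₐ[ℚ] L).toRingHom
  have hφ : (algebraMap L (AlgebraicClosure ℚ)).comp φ =
      (aeval x : A →ₐ[ℚ] AlgebraicClosure ℚ).toRingHom := by
    apply MvPolynomial.ringHom_ext
    · intro r
      simp [φ]
    · intro i
      simp [φ, x']
  refine ⟨L, inferInstance, hNF, MvPolynomial.map φ F, ?_, ?_⟩
  · intro h0
    have h1 := coeff_map_gen f.support φ ⟨a0, ha0⟩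
    rw [show gen f.support = F from rfl, h0, coeff_zero] at h1
    apply hx0
    have h2 : φ (X ⟨a0, ha0⟩) = x' ⟨a0, ha0⟩ := aeval_X x' _
    rw [h2] at h1
    have h3 := congrArg (algebraMap L (AlgebraicClosure ℚ)) h1
    rw [map_zero] at h3
    exact h3.symm
  · intro m hm
    apply (algebraMap L (AlgebraicClosure ℚ)).injective
    rw [map_zero, ← I_map, map_pow, MvPolynomial.map_map, hφ, ← map_pow, I_map]
    exact hx _ (Ideal.subset_span ⟨m, hm, rfl⟩)

end Pool.Cube
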