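import Mathlib

set_option linter.unusedVariables false

/-! Cube project, block A: embeddings of number fields into `ℚ_[p]`. -/

namespace Pool.Cube

open Polynomial

universe u v

namespace A3

/-- A nonconstant integer polynomial has roots modulo arbitrarily large primes. -/
theorem exists_prime_dvd_eval (h : ℤ[X]) (hd : 0 < h.natDegree) (M : ℕ) :
    ∃ (p : ℕ) (a : ℤ), p.Prime ∧ M ≤ p ∧ (p : ℤ) ∣ h.eval a := by
  by_cases h0 : h.eval 0 = 0
  · obtain ⟨p, hp, hp2⟩ := Nat.exists_infinite_primes M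
    exact ⟨p, 0, hp2, hp, by rw [h0]; exact dvd_zero _⟩
  -- `h (h(0) * M! * t) = h(0) * (1 + M! * t * w)`
  set c : ℤ := h.eval 0 with hc
  set N : ℤ := (M.factorial : ℤ) with hN
  have hN0 : N ≠ 0 := by
    rw [hN]; exact_mod_cast M.factorial_ne_zero
  -- there is t ≥ 1 with |h (c * N * t)| > |c|
  have key : ∃ t : ℤ, ¬ (h.eval (c * N * t)).natAbs ≤ c.natAbs := by
    by_contra hcon
    push Not at hcon
    -- then h.comp (c N X) takes finitely many values on ℤ, so is constant
    have hfin : (Set.range fun t : ℤ => h.eval (c * N * t)).Finite := by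
      apply Set.Finite.subset (Set.finite_Icc (-(c.natAbs : ℤ)) (c.natAbs : ℤ))
      rintro _ ⟨t, rfl⟩
      have h1 := hcon t
      have h2 : (fun t : ℤ => h.eval (c * N * t)) t = h.eval (c * N * t) := rfl
      rw [h2, Set.mem_Icc]
      generalize h.eval (c * N * t) = e at h1
      constructor <;> omega
    -- some value is attained infinitely often
    obtain ⟨y, hy⟩ : ∃ y : ℤ, (((fun t : ℤ => h.eval (c * N * t)) ⁻¹' {y}).Infinite) := by
      by_contra hcon2
      push Not at hcon2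
      have : (Set.univ : Set ℤ).Finite := by
        have h1 : (Set.univ : Set ℤ) = ⋃ y ∈ (Set.range fun t : ℤ => h.eval (c * N * t)),
            (fun t : ℤ => h.eval (c * N * t)) ⁻¹' {y} := by
          ext t
          simp only [Set.mem_univ, Set.mem_iUnion, Set.mem_range, Set.mem_preimage,
            Set.mem_singleton_iff, true_iff]
          exact ⟨_, ⟨t, rfl⟩, rfl⟩
        rw [h1]
        exact hfin.biUnion fun y _ => hcon2 y
      exact Set.infinite_univ this
    have hcN : c * N ≠ 0 := mul_ne_zero h0 hN0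
    have hinf : {x : ℤ | (h - C y).IsRoot x}.Infinite := by
      have hinj : Function.Injective (fun t : ℤ => c * N * t) := fun a b hab =>
        mul_left_cancel₀ hcN hab
      apply (hy.image hinj.injOn).mono
      rintro _ ⟨t, ht, rfl⟩
      simp only [Set.mem_preimage, Set.mem_singleton_iff] at ht
      simp [IsRoot, ht]
    have hz : h - C y = 0 := by
      by_contra hne
      exact hinf ((h - C y).roots.toFinset.finite_toSet.subset fun x hx => by
        rw [Finset.mem_coe, Multiset.mem_toFinset, mem_roots hne]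
        exact hx)
    rw [sub_eq_zero] at hz
    rw [hz, natDegree_C] at hd
    exact lt_irrefl _ hd
  obtain ⟨t, ht⟩ := key
  -- N * t * c divides h (c N t) - c, with quotient: h(c N t) = c (1 + N * w)
  obtain ⟨w, hw⟩ : ∃ w : ℤ, h.eval (c * N * t) = c * (1 + N * w) := by
    have h1 : (c * N * t - 0) ∣ h.eval (c * N * t) - h.eval 0 := sub_dvd_eval_sub _ _ _
    obtain ⟨w, hw⟩ := h1
    refine ⟨t * w, ?_⟩
    rw [← hc] at hw
    linear_combination hw
  have hbig : (1 + N * w).natAbs ≠ 1 := by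
    intro h1
    apply ht
    rw [hw, Int.natAbs_mul, h1, mul_one]
  obtain ⟨p, hp, hpd⟩ := Nat.exists_prime_and_dvd hbig
  refine ⟨p, c * N * t, hp, ?_, ?_⟩
  · by_contra hlt
    push Not at hlt
    have h1 : (p : ℤ) ∣ N := by
      rw [hN]
      exact_mod_cast (hp.dvd_factorial).mpr hlt.le
    have h2 : (p : ℤ) ∣ 1 + N * w := Int.natCast_dvd.mpr hpd
    have h3 : (p : ℤ) ∣ 1 := (dvd_add_left (Dvd.dvd.mul_right h1 w)).mp h2
    exact hp.one_lt.ne' (by
      have := Int.eq_one_of_dvd_one (by positivity) h3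
      exact_mod_cast this)
  · rw [hw]
    exact Dvd.dvd.mul_left (Int.natCast_dvd.mpr hpd) _

theorem clear (μ : ℚ[X]) : ∃ (h : ℤ[X]) (b : ℤ), b ≠ 0 ∧
    h.map (algebraMap ℤ ℚ) = C ((b : ℤ) : ℚ) * μ := by
  obtain ⟨b, hbM, hb⟩ := IsLocalization.integerNormalization_spec (nonZeroDivisors ℤ) μ
  refine ⟨IsLocalization.integerNormalization (nonZeroDivisors ℤ) μ, b,
    nonZeroDivisors.ne_zero hbM, ?_⟩
  rw [hb]
  ext i
  simp

end A3

open A3 in
/-- A number field embeds into `ℚ_[p]` for infinitely many primes `p`. -/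
theorem exists_place (K : Type u) [Field K] [NumberField K] (M : ℕ) :
    ∃ (p : ℕ) (_ : Fact p.Prime), M ≤ p ∧ Nonempty (K →+* ℚ_[p]) := by
  let pb := Field.powerBasisOfFiniteOfSeparable ℚ K
  let μ := minpoly ℚ pb.gen
  have hμ : Irreducible μ := minpoly.irreducible pb.isIntegral_gen
  obtain ⟨h, b, hb0', hmap⟩ := clear μ
  have hb0 : ((b : ℤ) : ℚ) ≠ 0 := by exact_mod_cast hb0'
  have hdeg : 0 < h.natDegree := by
    have h1 : (h.map (algebraMap ℤ ℚ)).natDegree = h.natDegree :=
      natDegree_map_eq_of_injective (algebraMap ℤ ℚ).injective_int _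
    rw [← h1, hmap, natDegree_C_mul hb0]
    exact hμ.natDegree_pos
  have hsep : IsCoprime μ (derivative μ) := (PerfectField.separable_of_irreducible hμ)
  obtain ⟨a, d, hbez⟩ := hsep
  obtain ⟨a', α, hα0, hα⟩ := clear a
  obtain ⟨d', δ, hδ0, hδ⟩ := clear d
  set D : ℤ := b * α * δ with hD
  have hD0 : D ≠ 0 := mul_ne_zero (mul_ne_zero hb0' hα0) hδ0
  have hbezZ : C δ * a' * h + C α * d' * derivative h = C D := by
    apply map_injective (algebraMap ℤ ℚ) (algebraMap ℤ ℚ).injective_int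
    rw [Polynomial.map_add, Polynomial.map_mul, Polynomial.map_mul, Polynomial.map_mul,
      Polynomial.map_mul, ← derivative_map, hmap, hα, hδ, map_C, map_C, map_C, derivative_C_mul, hD]
    simp only [algebraMap_int_eq, eq_intCast, Int.cast_mul, C_mul]
    linear_combination (C (b : ℚ) * C (α : ℚ) * C (δ : ℚ)) * hbez
  obtain ⟨p, x, hp, hpM, hpx⟩ := exists_prime_dvd_eval h hdeg (max M (D.natAbs + 1))
  have : Fact p.Prime := ⟨hp⟩
  have hpD : ¬ (p : ℤ) ∣ D := by
    intro hdvd
    have h1 := Nat.le_of_dvd (Int.natAbs_pos.mpr hD0) (Int.natCast_dvd.mp hdvd)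
    have h2 := le_trans (le_max_right _ _) hpM
    omega
  have hpd : ¬ (p : ℤ) ∣ (derivative h).eval x := by
    intro hdvd
    apply hpD
    have h1 := congrArg (eval x) hbezZ
    simp only [eval_add, eval_mul, eval_C] at h1
    rw [← h1]
    exact dvd_add (Dvd.dvd.mul_left hpx _) (Dvd.dvd.mul_left hdvd _)
  refine ⟨p, inferInstance, le_trans (le_max_left _ _) hpM, ?_⟩
  have hev : ∀ q : ℤ[X], aeval ((x : ℤ) : ℤ_[p]) q = ((q.eval x : ℤ) : ℤ_[p]) := by
    intro q
    rw [aeval_def, eval₂_eq_eval_map, eval_intCast_map]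
    simp
  have hn1 : ‖aeval ((x : ℤ) : ℤ_[p]) h‖ < 1 := by
    rw [hev]
    exact PadicInt.norm_int_lt_one_iff_dvd _ |>.mpr hpx
  have hn2 : ‖aeval ((x : ℤ) : ℤ_[p]) (derivative h)‖ = 1 := by
    rw [hev]
    refine le_antisymm (PadicInt.norm_le_one _) ?_
    by_contra hlt
    push Not at hlt
    exact hpd (PadicInt.norm_int_lt_one_iff_dvd _ |>.mp hlt)
  obtain ⟨z, hz, -⟩ := hensels_lemma (F := h) (a := ((x : ℤ) : ℤ_[p])) (by
    rw [hn2]; simpa using hn1)
  have hz2 : aeval ((z : ℤ_[p]) : ℚ_[p]) h = 0 := by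
    have h1 := congrArg (algebraMap ℤ_[p] ℚ_[p]) hz
    rw [map_zero, ← aeval_algebraMap_apply] at h1
    exact h1
  have hz3 : aeval ((z : ℤ_[p]) : ℚ_[p]) μ = 0 := by
    have h1 : aeval ((z : ℤ_[p]) : ℚ_[p]) (h.map (algebraMap ℤ ℚ)) = 0 := by
      rw [aeval_map_algebraMap]
      exact hz2
    rw [hmap, map_mul, aeval_C] at h1
    rcases mul_eq_zero.mp h1 with h2 | h2
    · exact absurd ((map_eq_zero _).mp h2) hb0
    · exact h2
  exact ⟨(pb.lift _ hz3 : K →ₐ[ℚ] ℚ_[p]).toRingHom⟩

end Pool.Cube
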