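import Pool.Agent.H50.CUBE.A2
import Pool.Agent.H50.CUBE.A3

set_option linter.unusedVariables false

/-! Cube project, block A: the final wiring. -/

namespace Pool.Cube

open MvPolynomial MeasureTheory

/-- The statement over number fields. -/
def CubeNF : Prop := ∀ (n : ℕ) (K : Type) [Field K] [NumberField K]
  (f : MvPolynomial (Fin n) K), Bad f → f = 0

theorem frozen_of_cubeNF (h : CubeNF) :
    ∀ n : ℕ, ∀ f g : MvPolynomial (Fin n) ℂ,
      (∃ N : ℕ, ∀ m : ℕ, N ≤ m →
        ∫ x in Set.Icc (0 : Fin n → ℝ) 1,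
          MvPolynomial.eval (fun i => ((x i : ℝ) : ℂ)) (f ^ m) = 0) →
      ∃ N : ℕ, ∀ m : ℕ, N ≤ m →
        ∫ x in Set.Icc (0 : Fin n → ℝ) 1,
          MvPolynomial.eval (fun i => ((x i : ℝ) : ℂ)) (f ^ m * g) = 0 := by
  intro n f g ⟨N, hN⟩
  have hf : f = 0 := by
    by_contra hf
    have hb : Bad (f ^ (N + 1)) := by
      intro m hm
      rw [← integral_eq, ← pow_mul]
      apply hN
      nlinarith
    obtain ⟨K, _, _, g, hg, hbg⟩ := exists_numberField _ (pow_ne_zero _ hf) hb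
    exact hg (h n K g hbg)
  refine ⟨1, fun m hm => ?_⟩
  rw [hf, zero_pow (by omega), zero_mul]
  simp

end Pool.Cube
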