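import Mathlib

set_option linter.unusedVariables false

/-! Cube project, block D: kernel lemma, finite level linear algebra. -/

namespace Pool.CUBE.D

open HahnSeries

/-- `x` is divisible by `p ^ M` in the subring `O`. -/
def Dv {E : Type*} [Field E] (O : Subring E) (p M : ℕ) (x : E) : Prop :=
  ∃ y ∈ O, x = (p : E) ^ M * y

namespace Dv
variable {E : Type*} [Field E] {O : Subring E} {p M : ℕ} {x y : E}

theorem zero : Dv O p M 0 := ⟨0, O.zero_mem, by simp⟩

theorem add (hx : Dv O p M x) (hy : Dv O p M y) : Dv O p M (x + y) := by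
  obtain ⟨a, ha, rfl⟩ := hx
  obtain ⟨b, hb, rfl⟩ := hy
  exact ⟨a + b, O.add_mem ha hb, by ring⟩

theorem neg (hx : Dv O p M x) : Dv O p M (-x) := by
  obtain ⟨a, ha, rfl⟩ := hx
  exact ⟨-a, O.neg_mem ha, by ring⟩

theorem mul_left (hx : Dv O p M x) (hy : y ∈ O) : Dv O p M (y * x) := by
  obtain ⟨a, ha, rfl⟩ := hx
  exact ⟨y * a, O.mul_mem hy ha, by ring⟩

theorem mul_right (hx : Dv O p M x) (hy : y ∈ O) : Dv O p M (x * y) := by
  rw [mul_comm]
  exact hx.mul_left hy

theorem sum {ι : Type*} (s : Finset ι) (f : ι → E) (h : ∀ i ∈ s, Dv O p M (f i)) :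
    Dv O p M (∑ i ∈ s, f i) := by
  classical
  induction s using Finset.induction_on with
  | empty => simpa using zero
  | insert a s ha ih =>
    rw [Finset.sum_insert ha]
    exact (h a (Finset.mem_insert_self _ _)).add
      (ih fun i hi => h i (Finset.mem_insert_of_mem hi))

end Dv

/-- A family of functionals on a finite dimensional space has the same common zeros as a finite
subfamily. -/
theorem exists_finset_ker {E V ι : Type*} [Field E] [AddCommGroup V] [Module E V]
    [FiniteDimensional E V] (f : ι → V →ₗ[E] E) :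
    ∃ J : Finset ι, ∀ v, (∀ j ∈ J, f j v = 0) → ∀ j, f j v = 0 := by
  classical
  let K : Finset ι → Submodule E V := fun J => ⨅ j ∈ J, LinearMap.ker (f j)
  have hK : ∀ J v, v ∈ K J ↔ ∀ j ∈ J, f j v = 0 := by
    intro J v
    simp [K, Submodule.mem_iInf]
  obtain ⟨J, hJ⟩ : ∃ J, ∀ J', Module.finrank E (K J) ≤ Module.finrank E (K J') := by
    have hne : (Set.range fun J => Module.finrank E (K J)).Nonempty := ⟨_, ⟨∅, rfl⟩⟩
    obtain ⟨J, hJ⟩ := Nat.sInf_mem hne
    refine ⟨J, fun J' => ?_⟩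
    rw [show Module.finrank E (K J) = _ from hJ]
    exact Nat.sInf_le ⟨J', rfl⟩
  refine ⟨J, fun v hv j => ?_⟩
  have h1 : K (insert j J) ≤ K J := by
    intro w hw
    rw [hK] at hw ⊢
    exact fun i hi => hw i (Finset.mem_insert_of_mem hi)
  have h2 : K (insert j J) = K J := Submodule.eq_of_le_of_finrank_le h1 (hJ _)
  have h3 : v ∈ K (insert j J) := by
    rw [h2, hK]
    exact hv
  rw [hK] at h3
  exact h3 j (Finset.mem_insert_self _ _)

/-- Generalised inverse. -/
theorem exists_ginv {E V W : Type*} [Field E] [AddCommGroup V] [Module E V] [AddCommGroup W]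
    [Module E W] (f : V →ₗ[E] W) : ∃ g : W →ₗ[E] V, ∀ v, f (g (f v)) = f v := by
  obtain ⟨s, hs⟩ := LinearMap.exists_rightInverse_of_surjective (LinearMap.ker f).mkQ
    (Submodule.range_mkQ _)
  let fb : (V ⧸ LinearMap.ker f) →ₗ[E] W := (LinearMap.ker f).liftQ f le_rfl
  have hfb : LinearMap.ker fb = ⊥ := Submodule.ker_liftQ_eq_bot _ _ _ le_rfl
  obtain ⟨g, hg⟩ := LinearMap.exists_leftInverse_of_injective fb hfb
  refine ⟨s.comp g, fun v => ?_⟩
  have h1 : ∀ w, fb ((LinearMap.ker f).mkQ w) = f w := fun w => rfl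
  have h2 : ∀ q, (LinearMap.ker f).mkQ (s q) = q := fun q => LinearMap.congr_fun hs q
  have h3 : ∀ q, g (fb q) = q := fun q => LinearMap.congr_fun hg q
  rw [LinearMap.comp_apply, ← h1 v, h3, ← h1, h2]

section
variable {E F : Type*} [Field E] [Field F] [Algebra E F]

/-- the `j`-th coefficient of `∑ i, δ_i w_i`, `w_i = ∑ b, y i b λ^b` -/
noncomputable def act {ι : Type*} [Fintype ι] (δ : ι → LaurentSeries E) (C : ℕ)
    (y : ι × Fin (C + 1) → E) (j : ℤ) : E :=
  ∑ c, (δ c.1).coeff (j - (c.2 : ℕ)) * y c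

/-- the vector of polynomials with coefficients `y` -/
noncomputable def vec {ι : Type*} [Fintype ι] (lam : F) (C : ℕ) (y : ι × Fin (C + 1) → E) (i : ι) : F :=
  ∑ b : Fin (C + 1), algebraMap E F (y (i, b)) * lam ^ (b : ℕ)

theorem single_pow_one (k : ℕ) : (single (1 : ℤ) (1 : E)) ^ k = single (k : ℤ) 1 := by
  rw [single_pow]
  simp

theorem coeff_act {ι : Type*} [Fintype ι] (lam : F) (ex : F →+* LaurentSeries E)
    (hexC : ∀ c : E, ex (algebraMap E F c) = C c) (hexl : ex lam = single 1 1)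
    (δ : ι → LaurentSeries E) (D : ℕ) (y : ι × Fin (D + 1) → E) (j : ℤ) :
    (∑ i, δ i * ex (vec lam D y i)).coeff j = act δ D y j := by
  rw [coeff_sum, act, Fintype.sum_prod_type]
  refine Finset.sum_congr rfl fun i _ => ?_
  rw [vec, map_sum, Finset.mul_sum, coeff_sum]
  refine Finset.sum_congr rfl fun b _ => ?_
  rw [map_mul, map_pow, hexC, hexl, single_pow_one, C_apply, single_mul_single, zero_add, mul_one,
    coeff_mul_single]

theorem sum_range_split {A : Type*} [AddCommMonoid A] (p n : ℕ) (f : ℕ → A) :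
    ∑ k ∈ Finset.range (p * n), f k = ∑ b ∈ Finset.range n, ∑ l ∈ Finset.range p, f (l + p * b) := by
  induction n with
  | zero => simp
  | succ n ih =>
    rw [Nat.mul_succ, Finset.sum_range_add, ih, Finset.sum_range_succ]
    congr 1
    exact Finset.sum_congr rfl fun l _ => by rw [add_comm]

theorem coeff_poly {ι : Type*} [Fintype ι] (lam : F) (ex : F →+* LaurentSeries E)
    (hexC : ∀ c : E, ex (algebraMap E F c) = C c) (hexl : ex lam = single 1 1)
    (δ : ι → LaurentSeries E) (K : ℕ) (g : ι → ℕ → E) (n : ℤ) :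
    (∑ i, δ i * ex (∑ k ∈ Finset.range K, algebraMap E F (g i k) * lam ^ k)).coeff n =
      ∑ i, ∑ k ∈ Finset.range K, (δ i).coeff (n - (k : ℕ)) * g i k := by
  rw [coeff_sum]
  refine Finset.sum_congr rfl fun i _ => ?_
  rw [map_sum, Finset.mul_sum, coeff_sum]
  refine Finset.sum_congr rfl fun b _ => ?_
  rw [map_mul, map_pow, hexC, hexl, single_pow_one, C_apply, single_mul_single, zero_add, mul_one,
    coeff_mul_single]

/-- **Finite level kernel lemma.** -/
theorem ker_level (lam : F) (ex : F →+* LaurentSeries E)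
    (hexC : ∀ c : E, ex (algebraMap E F c) = C c) (hexl : ex lam = single 1 1)
    (OE : Subring E) (OF : Subring F) (hO : ∀ c ∈ OE, algebraMap E F c ∈ OF) (hl : lam ∈ OF)
    (p : ℕ) (hp : 0 < p) (φE : E →+* E) (φF : F →+* F)
    (hφ : ∀ c, φF (algebraMap E F c) = algebraMap E F (φE c)) (hφl : φF lam = lam ^ p)
    {ι : Type*} [Fintype ι] (δ δφ : ι → LaurentSeries E)
    (hδφ : ∀ i j, (δφ i).coeff (p * j) = φE ((δ i).coeff j))
    (hδφ0 : ∀ i n, ¬ (p : ℤ) ∣ n → (δφ i).coeff n = 0)
    (D M : ℕ) (J : Finset ℤ)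
    (hJ : ∀ y : ι × Fin (D + 1) → E, (∀ j ∈ J, act δ D y j = 0) → ∀ j, act δ D y j = 0)
    (r : ι × Fin (D + 1) → J → E)
    (hr : ∀ (y : ι × Fin (D + 1) → E), ∀ j ∈ J,
      act δ D (fun c => y c - ∑ j' : J, r c j' * act δ D y j') j = 0)
    (hrO : ∀ c j, φE (r c j) ∈ OE)
    (α : ι → F) (hα : ∀ w : ι → F, ∑ i, δ i * ex (w i) = 0 → ∑ i, α i * w i = 0)
    (hαO : ∀ i, φF (α i) ∈ OF)
    (g : ι → ℕ → E) (hg : ∀ i k, g i k ∈ OE)
    (hco : ∀ l < p, ∀ j ∈ J,
      Dv OE p M ((∑ i, δφ i * ex (∑ k ∈ Finset.range (p * (D + 1)),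
        algebraMap E F (g i k) * lam ^ k)).coeff (l + p * j))) :
    Dv OF p M (∑ i, φF (α i) * ∑ k ∈ Finset.range (p * (D + 1)),
        algebraMap E F (g i k) * lam ^ k) := by
  classical
  -- splitting the range
  have hsplit : ∀ f : ℕ → F, ∑ k ∈ Finset.range (p * (D + 1)), f k =
      ∑ b : Fin (D + 1), ∑ l ∈ Finset.range p, f (l + p * b) := by
    intro f
    rw [sum_range_split, ← Fin.sum_univ_eq_sum_range (fun b => ∑ l ∈ Finset.range p, f (l + p * b))]
  -- the coefficients
  have hco' : ∀ l < p, ∀ j ∈ J, Dv OE p M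
      (∑ c : ι × Fin (D + 1), φE ((δ c.1).coeff (j - (c.2 : ℕ))) * g c.1 (l + p * c.2)) := by
    intro l hl' j hj
    have h1 := hco l hl' j hj
    rw [coeff_poly lam ex hexC hexl] at h1
    convert h1 using 1
    rw [Fintype.sum_prod_type]
    refine Finset.sum_congr rfl fun i _ => ?_
    rw [sum_range_split, ← Fin.sum_univ_eq_sum_range
      (fun b => ∑ l' ∈ Finset.range p, (δφ i).coeff ((l : ℤ) + p * j - ((l' + p * b : ℕ) : ℤ)) *
        g i (l' + p * b))]
    refine Finset.sum_congr rfl fun b _ => ?_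
    rw [Finset.sum_eq_single_of_mem l (Finset.mem_range.mpr hl')]
    · have h2 : (l : ℤ) + p * j - ((l + p * (b : ℕ) : ℕ) : ℤ) = p * (j - (b : ℕ)) := by
        push_cast; ring
      rw [h2, hδφ]
    · intro l' hl'' hne
      rw [hδφ0, zero_mul]
      rintro ⟨q, hq⟩
      have h3 : (l : ℤ) - l' = p * (q - j + (b : ℕ)) := by
        push_cast at hq
        linear_combination hq
      have hl3 := Finset.mem_range.mp hl''
      have h4 : (p : ℤ) ∣ (l : ℤ) - l' := ⟨_, h3⟩
      have h5 : (l : ℤ) - l' = 0 := by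
        apply Int.eq_zero_of_abs_lt_dvd h4
        rw [abs_lt]
        omega
      exact hne (by omega)
  -- the vectors in the kernel
  have hker : ∀ c0 : ι × Fin (D + 1), ∑ i, φF (α i) * ∑ b : Fin (D + 1),
      algebraMap E F (φE ((if (i, b) = c0 then 1 else 0) -
        ∑ j : J, r (i, b) j * (δ c0.1).coeff ((j : ℤ) - (c0.2 : ℕ)))) * lam ^ (p * (b : ℕ)) = 0 := by
    intro c0
    set y : ι × Fin (D + 1) → E := fun c => if c = c0 then 1 else 0 with hy
    have hact : ∀ j : ℤ, act δ D y j = (δ c0.1).coeff (j - (c0.2 : ℕ)) := by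
      intro j
      rw [act, Finset.sum_eq_single c0]
      · simp [hy]
      · intro c _ hc
        simp [hy, hc]
      · intro h
        exact absurd (Finset.mem_univ _) h
    set w : ι × Fin (D + 1) → E := fun c => y c - ∑ j' : J, r c j' * act δ D y j' with hw
    have h1 : ∀ j, act δ D w j = 0 := hJ w (hr y)
    have h2 : ∑ i, δ i * ex (vec lam D w i) = 0 := by
      ext j
      rw [coeff_act lam ex hexC hexl, h1]
      rfl
    have h3 := congrArg φF (hα _ h2)
    rw [map_zero, map_sum] at h3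
    rw [← h3]
    refine Finset.sum_congr rfl fun i _ => ?_
    rw [map_mul, vec, map_sum]
    congr 1
    refine Finset.sum_congr rfl fun b _ => ?_
    rw [map_mul, map_pow, hφ, hφl, ← pow_mul, hw]
    simp_rw [hact, hy]
  -- for every residue class
  have hmain : ∀ l < p, Dv OF p M (∑ i, φF (α i) * ∑ b : Fin (D + 1),
      algebraMap E F (g i (l + p * b)) * lam ^ (p * (b : ℕ))) := by
    intro l hl'
    set t : J → E := fun j => ∑ c : ι × Fin (D + 1),
      φE ((δ c.1).coeff ((j : ℤ) - (c.2 : ℕ))) * g c.1 (l + p * c.2) with ht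
    set d : ι × Fin (D + 1) → E := fun c => ∑ j : J, φE (r c j) * t j with hd
    have hdv : ∀ c, Dv OE p M (d c) := fun c =>
      Dv.sum _ _ fun j _ => (hco' l hl' j j.2).mul_left (hrO c j)
    have heq : (∑ i, φF (α i) * ∑ b : Fin (D + 1),
        algebraMap E F (g i (l + p * b)) * lam ^ (p * (b : ℕ))) =
        ∑ i, φF (α i) * ∑ b : Fin (D + 1), algebraMap E F (d (i, b)) * lam ^ (p * (b : ℕ)) := by
      rw [← sub_eq_zero, ← Finset.sum_sub_distrib]
      have h1 : ∑ c0 : ι × Fin (D + 1), algebraMap E F (g c0.1 (l + p * c0.2)) *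
          (∑ i, φF (α i) * ∑ b : Fin (D + 1),
            algebraMap E F (φE ((if (i, b) = c0 then 1 else 0) -
              ∑ j : J, r (i, b) j * (δ c0.1).coeff ((j : ℤ) - (c0.2 : ℕ)))) *
              lam ^ (p * (b : ℕ))) = 0 :=
        Finset.sum_eq_zero fun c0 _ => by rw [hker, mul_zero]
      rw [← h1]
      simp_rw [Finset.mul_sum]
      rw [Finset.sum_comm]
      refine Finset.sum_congr rfl fun i _ => ?_
      rw [Finset.sum_comm, ← Finset.sum_sub_distrib]
      refine Finset.sum_congr rfl fun b _ => ?_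
      have h2 : g i (l + p * b) - d (i, b) = ∑ c0 : ι × Fin (D + 1),
          g c0.1 (l + p * c0.2) * φE ((if (i, b) = c0 then 1 else 0) -
              ∑ j : J, r (i, b) j * (δ c0.1).coeff ((j : ℤ) - (c0.2 : ℕ))) := by
        simp_rw [map_sub, mul_sub]
        rw [Finset.sum_sub_distrib]
        congr 1
        · rw [Finset.sum_eq_single ((i, b) : ι × Fin (D + 1))]
          · simp
          · intro c0 _ hc0
            rw [if_neg (Ne.symm hc0), map_zero, mul_zero]
          · intro h
            exact absurd (Finset.mem_univ _) h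
        · rw [hd]
          simp_rw [ht, map_sum, map_mul, Finset.mul_sum]
          rw [Finset.sum_comm]
          refine Finset.sum_congr rfl fun c0 _ => ?_
          refine Finset.sum_congr rfl fun j _ => ?_
          ring
      have h3 : φF (α i) * (algebraMap E F (g i (l + p * b)) * lam ^ (p * (b : ℕ))) -
          φF (α i) * (algebraMap E F (d (i, b)) * lam ^ (p * (b : ℕ))) =
          φF (α i) * algebraMap E F (g i (l + p * b) - d (i, b)) * lam ^ (p * (b : ℕ)) := by
        rw [map_sub]; ring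
      rw [h3, h2, map_sum, Finset.mul_sum, Finset.sum_mul]
      refine Finset.sum_congr rfl fun c0 _ => ?_
      rw [map_mul]
      ring
    rw [heq]
    refine Dv.sum _ _ fun i _ => Dv.mul_left (Dv.sum _ _ fun b _ => ?_) (hαO i)
    have h4 : Dv OF p M (algebraMap E F (d (i, b))) := by
      obtain ⟨z, hz, hz2⟩ := hdv (i, b)
      exact ⟨algebraMap E F z, hO z hz, by rw [hz2, map_mul, map_pow, map_natCast]⟩
    exact h4.mul_right (OF.pow_mem hl _)
  have hfin : (∑ i, φF (α i) * ∑ k ∈ Finset.range (p * (D + 1)),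
        algebraMap E F (g i k) * lam ^ k) =
      ∑ l ∈ Finset.range p, lam ^ l * (∑ i, φF (α i) * ∑ b : Fin (D + 1),
        algebraMap E F (g i (l + p * b)) * lam ^ (p * (b : ℕ))) := by
    simp_rw [hsplit, Finset.mul_sum]
    rw [Finset.sum_comm (s := Finset.range p) (t := Finset.univ)]
    refine Finset.sum_congr rfl fun i _ => ?_
    rw [Finset.sum_comm (s := Finset.range p) (t := Finset.univ)]
    refine Finset.sum_congr rfl fun b _ => ?_
    refine Finset.sum_congr rfl fun l _ => ?_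
    rw [_root_.pow_add]
    ring
  rw [hfin]
  exact Dv.sum _ _ fun l hl' => (hmain l (Finset.mem_range.mp hl')).mul_left (OF.pow_mem hl _)

end

end Pool.CUBE.D
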