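import Pool.Agent.H10.CM.FStmts
import Pool.Agent.H93.CUBE.LDefs
import Pool.Agent.H50.CUBE.D0

set_option autoImplicit false
set_option linter.unusedVariables false

/-! Cube project, block D: the kernel lemma for a functional with values in a Laurent series
field. -/

open Polynomial

namespace Pool.CUBE.D

open Pool.CM Pool.H93.Cube

/-- Expansion data for `E(x)`: a parameter `lam` (`x` or `1/x`) and the expansion in `lam`. -/
structure Exn {X : Idx} {E : Type} [Field E] (A : PF X E) where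
  lam : RatFunc E
  ex : RatFunc E →+* LaurentSeries E
  exC : ∀ c, ex (algebraMap E (RatFunc E) c) = HahnSeries.C c
  exl : ex lam = HahnSeries.single 1 1
  lU : ∀ i, A.ext.Un i lam
  lphi : ∀ i, A.ext.phi i lam = lam ^ X.p i
  gen : ∀ x : RatFunc E, ∃ g h : E[X], aeval lam h ≠ 0 ∧ x * aeval lam h = aeval lam g
  sh : ℕ
  polf : ∀ i d x, x ∈ A.ext.pol i d → ∃ g : E[X], A.Int i g ∧ g.natDegree ≤ d ∧
    x * lam ^ (sh * d) = aeval lam g

/-- **Compatibility of a functional with a Frobenius matrix, multiplied form** (MCOMP). -/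
def MComp {X : Idx} {E : Type} [Field E] {A : PF X E} (Z : Exn A) (i : X.I) {m : Type} [Fintype m]
    (n M C : ℕ) (T : ℤ) (δ : m → LaurentSeries E) (Psi : Matrix m m (RatFunc E)) : Prop :=
  ∃ h ∈ A.ext.den i (C * X.p i), (∀ a b, h * Psi a b ∈ A.ext.pol i (C * X.p i)) ∧
    ∀ b, ∀ k : ℤ, k ≤ X.p i * T → (Z.ex h * (∑ a, phiL (A.phi i) (X.p i) (X.hp i).ne_zero (δ a) *
      Z.ex (Psi a b) - HahnSeries.C ((X.p i : E) ^ n) * δ b)).coeff k ∈ pI (A.O i) (X.p i) M

section place
variable {X : Idx} {E : Type} [Field E] {A : PF X E} {i : X.I}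

theorem algebraMap_mem (c : E) (hc : c ∈ A.O i) : algebraMap E (RatFunc E) c ∈ A.ext.O i := by
  refine ⟨C c, ?_, 1, (A.primS i).one_mem, ?_⟩
  · intro n
    rw [coeff_C]
    split
    · exact hc
    · exact (A.O i).zero_mem
  · rw [map_one, mul_one]
    rfl

theorem phi_algebraMap (c : E) :
    A.ext.phi i (algebraMap E (RatFunc E) c) = algebraMap E (RatFunc E) (A.phi i c) := by
  have h1 : algebraMap E (RatFunc E) c = algebraMap E[X] (RatFunc E) (C c) := rfl
  have h2 : algebraMap E (RatFunc E) (A.phi i c) = algebraMap E[X] (RatFunc E) (C (A.phi i c)) :=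
    rfl
  rw [h1, h2]
  change phiR (A.phi i) (X.p i) (X.hp i).pos (algebraMap E[X] (RatFunc E) (C c)) = _
  rw [phiR_algebraMap, phiP_apply, map_C, expand_C]

theorem int_prod {κ : Type*} (s : Finset κ) (f : κ → E[X]) (h : ∀ k ∈ s, A.Int i (f k)) :
    A.Int i (∏ k ∈ s, f k) := by
  classical
  induction s using Finset.induction_on with
  | empty => exact PF.Int.one A
  | insert a s ha ih =>
    rw [Finset.prod_insert ha]
    exact PF.Int.mul A (h a (Finset.mem_insert_self _ _))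
      (ih fun k hk => h k (Finset.mem_insert_of_mem hk))

theorem int_sum {κ : Type*} (s : Finset κ) (f : κ → E[X]) (h : ∀ k ∈ s, A.Int i (f k)) :
    A.Int i (∑ k ∈ s, f k) := by
  classical
  induction s using Finset.induction_on with
  | empty => exact PF.Int.zero A
  | insert a s ha ih =>
    rw [Finset.sum_insert ha]
    exact PF.Int.add A (h a (Finset.mem_insert_self _ _))
      (ih fun k hk => h k (Finset.mem_insert_of_mem hk))

theorem dv_of_mul_un {M : ℕ} {x y : RatFunc E} (hy : A.ext.Un i y) (h : A.ext.Dv i M (x * y)) :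
    A.ext.Dv i M x := by
  obtain ⟨z, hz, hz2⟩ := h
  refine ⟨z * y⁻¹, (A.ext.O i).mul_mem hz hy.2.2, ?_⟩
  rw [← mul_assoc, ← hz2, mul_assoc, mul_inv_cancel₀ hy.1, mul_one]

theorem aeval_range (lam : RatFunc E) (g : E[X]) (K : ℕ) (hK : g.natDegree < K) :
    aeval lam g = ∑ k ∈ Finset.range K, algebraMap E (RatFunc E) (g.coeff k) * lam ^ k := by
  rw [aeval_eq_sum_range' hK]
  exact Finset.sum_congr rfl fun k _ => by rw [Algebra.smul_def]

/-- **The kernel lemma at one place**, for a polynomial vector `w`. -/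
theorem kernel_place (hA' : A.ext.Ax) (Z : Exn A) {ι : Type} [Fintype ι] (δ : ι → LaurentSeries E)
    (w : ι → E[X]) (hw : ∑ b, δ b * Z.ex (aeval Z.lam (w b)) = 0) (hwi : ∀ b, A.Int i (w b))
    (α : ι → RatFunc E) (hα : ∀ w : ι → RatFunc E, ∑ b, δ b * Z.ex (w b) = 0 →
      ∑ b, α b * w b = 0) (hαO : ∀ b, A.ext.phi i (α b) ∈ A.ext.O i)
    (M C n W D : ℕ) (hW : ∀ b, (w b).natDegree ≤ W)
    (hD : C + W ≤ D) (J : Finset ℤ)
    (hJ : ∀ y : ι × Fin (D + 1) → E, (∀ j ∈ J, act δ D y j = 0) → ∀ j, act δ D y j = 0)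
    (r : ι × Fin (D + 1) → J → E)
    (hr : ∀ (y : ι × Fin (D + 1) → E), ∀ j ∈ J,
      act δ D (fun c => y c - ∑ j' : J, r c j' * act δ D y j') j = 0)
    (hrO : ∀ c j, A.phi i (r c j) ∈ A.O i)
    (T : ℤ) (hT : ∀ j ∈ J, j < T)
    (Ψ : Matrix ι ι (RatFunc E)) (hcomp : MComp Z i n M C T δ Ψ) :
    A.ext.Dv i M (∑ a, A.ext.phi i (α a) * ∑ b, Ψ a b * aeval Z.lam (w b)) := by
  classical
  have hp := (X.hp i).pos
  obtain ⟨h, hh, hhΨ, hcomp⟩ := hcomp
  set d := C * X.p i with hd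
  set δφ : ι → LaurentSeries E := fun a => phiL (A.phi i) (X.p i) (X.hp i).ne_zero (δ a) with hδφd
  have hδφ : ∀ a j, (δφ a).coeff (X.p i * j) = A.phi i ((δ a).coeff j) := fun a j =>
    phiL_coeff_mul _ _ _ _ _
  have hδφ0 : ∀ a n, ¬ (X.p i : ℤ) ∣ n → (δφ a).coeff n = 0 := fun a n hn =>
    phiL_coeff_not _ _ _ _ _ hn
  obtain ⟨H, hH, hHd, hHe⟩ := Z.polf i d h (hA'.den_pol i d h hh)
  have hhU := hA'.den_un i d h hh
  have hlU : ∀ k, A.ext.Un i (Z.lam ^ k) := fun k =>
    ⟨pow_ne_zero _ (Z.lU i).1, (A.ext.O i).pow_mem (Z.lU i).2.1 k, by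
      rw [← inv_pow]; exact (A.ext.O i).pow_mem (Z.lU i).2.2 k⟩
  have hHu : A.ext.Un i (aeval Z.lam H) := by
    rw [← hHe]
    refine ⟨mul_ne_zero hhU.1 (hlU _).1, (A.ext.O i).mul_mem hhU.2.1 (hlU _).2.1, ?_⟩
    rw [mul_inv]
    exact (A.ext.O i).mul_mem hhU.2.2 (hlU _).2.2
  choose G hG hGd hGe using fun c : ι × ι => Z.polf i d _ (hhΨ c.1 c.2)
  have hHG : ∀ c : ι × ι, Ψ c.1 c.2 * aeval Z.lam H = aeval Z.lam (G c) := by
    intro c
    rw [← hGe, ← hHe]
    ring
  set G' : ι → E[X] := fun a => ∑ b, G (a, b) * w b with hG'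
  have hG'd : ∀ a, (G' a).natDegree < X.p i * (D + 1) := by
    intro a
    have h1 : (G' a).natDegree ≤ d + W := by
      refine natDegree_sum_le_of_forall_le _ _ fun b _ => ?_
      exact natDegree_mul_le.trans (Nat.add_le_add (hGd (a, b)) (hW b))
    have h2 : d + W ≤ X.p i * D := by
      calc d + W ≤ X.p i * C + X.p i * W := by
            have := Nat.le_mul_of_pos_left W hp
            rw [hd, mul_comm C]
            omega
        _ = X.p i * (C + W) := by ring
        _ ≤ X.p i * D := Nat.mul_le_mul_left _ hD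
    have h4 : X.p i * D < X.p i * (D + 1) := Nat.mul_lt_mul_of_pos_left (Nat.lt_succ_self D) hp
    omega
  have hG'i : ∀ a, A.Int i (G' a) := fun a => int_sum _ _ fun b _ =>
    PF.Int.mul A (hG (a, b)) (hwi b)
  have hG'e : ∀ a, aeval Z.lam (G' a) =
      aeval Z.lam H * ∑ b, Ψ a b * aeval Z.lam (w b) := by
    intro a
    rw [hG']
    simp only
    rw [map_sum, Finset.mul_sum]
    refine Finset.sum_congr rfl fun b _ => ?_
    rw [map_mul, ← hHG (a, b)]
    ring
  -- the compatibility defect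
  set R : ι → LaurentSeries E := fun b => Z.ex (aeval Z.lam H) *
    (∑ a, δφ a * Z.ex (Ψ a b) - HahnSeries.C ((X.p i : E) ^ n) * δ b) with hR
  have hRco : ∀ b, ∀ k : ℤ, k ≤ X.p i * T → (R b).coeff k ∈ pI (A.O i) (X.p i) M := by
    intro b k hk
    have h1 : R b = (Z.ex h * (∑ a, δφ a * Z.ex (Ψ a b) -
        HahnSeries.C ((X.p i : E) ^ n) * δ b)) * HahnSeries.single ((Z.sh * d : ℕ) : ℤ) 1 := by
      rw [hR]
      simp only
      rw [← hHe, map_mul, map_pow, Z.exl, single_pow_one]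
      ring
    rw [h1, HahnSeries.coeff_mul_single, mul_one]
    exact hcomp b _ (by have : (0 : ℤ) ≤ ((Z.sh * d : ℕ) : ℤ) := by positivity
                        omega)
  obtain ⟨K, hK⟩ : ∃ K, ∀ b, (w b).natDegree < K :=
    ⟨(Finset.univ.sup fun b => (w b).natDegree) + 1, fun b =>
      Nat.lt_succ_of_le (Finset.le_sup (f := fun b => (w b).natDegree) (Finset.mem_univ b))⟩
  have hid : ∑ a, δφ a * Z.ex (aeval Z.lam (G' a)) =
      ∑ b, R b * Z.ex (aeval Z.lam (w b)) := by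
    have h1 : ∀ a, δφ a * Z.ex (aeval Z.lam (G' a)) =
        ∑ b, δφ a * Z.ex (Ψ a b) * (Z.ex (aeval Z.lam H) * Z.ex (aeval Z.lam (w b))) := by
      intro a
      rw [hG'e, map_mul, map_sum, Finset.mul_sum, Finset.mul_sum]
      refine Finset.sum_congr rfl fun b _ => ?_
      rw [map_mul]
      ring
    simp_rw [h1]
    rw [Finset.sum_comm]
    have h2 : ∀ b, R b * Z.ex (aeval Z.lam (w b)) =
        ∑ a, δφ a * Z.ex (Ψ a b) * (Z.ex (aeval Z.lam H) * Z.ex (aeval Z.lam (w b))) -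
        HahnSeries.C ((X.p i : E) ^ n) * Z.ex (aeval Z.lam H) *
          (δ b * Z.ex (aeval Z.lam (w b))) := by
      intro b
      rw [hR]
      simp only
      rw [← Finset.sum_mul]
      ring
    simp_rw [h2]
    rw [Finset.sum_sub_distrib, ← Finset.mul_sum, hw, mul_zero, sub_zero]
  have key := ker_level Z.lam Z.ex Z.exC Z.exl (A.O i) (A.ext.O i)
    (fun c hc => algebraMap_mem c hc) (Z.lU i).2.1 (X.p i) hp (A.phi i) (A.ext.phi i)
    (fun c => phi_algebraMap c) (Z.lphi i) δ δφ hδφ hδφ0 D M J hJ r hr hrO α hα hαO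
    (fun a k => (G' a).coeff k) (fun a k => hG'i a k) ?_
  · have h1 : (∑ a, A.ext.phi i (α a) * ∑ k ∈ Finset.range (X.p i * (D + 1)),
        algebraMap E (RatFunc E) ((G' a).coeff k) * Z.lam ^ k) =
        (∑ a, A.ext.phi i (α a) * ∑ b, Ψ a b * aeval Z.lam (w b)) * aeval Z.lam H := by
      rw [Finset.sum_mul]
      refine Finset.sum_congr rfl fun a _ => ?_
      rw [← aeval_range Z.lam (G' a) _ (hG'd a), hG'e]
      ring
    rw [h1] at key
    exact dv_of_mul_un hHu key
  · intro l hl j hj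
    have h1 : (∑ a, δφ a * Z.ex (∑ k ∈ Finset.range (X.p i * (D + 1)),
        algebraMap E (RatFunc E) ((G' a).coeff k) * Z.lam ^ k)) =
        ∑ b, R b * Z.ex (∑ k ∈ Finset.range K,
          algebraMap E (RatFunc E) ((w b).coeff k) * Z.lam ^ k) := by
      rw [show (∑ a, δφ a * Z.ex (∑ k ∈ Finset.range (X.p i * (D + 1)),
        algebraMap E (RatFunc E) ((G' a).coeff k) * Z.lam ^ k)) =
        ∑ a, δφ a * Z.ex (aeval Z.lam (G' a)) from
          Finset.sum_congr rfl fun a _ => by rw [← aeval_range Z.lam (G' a) _ (hG'd a)], hid]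
      exact Finset.sum_congr rfl fun b _ => by rw [← aeval_range Z.lam (w b) _ (hK b)]
    rw [h1, coeff_poly Z.lam Z.ex Z.exC Z.exl]
    refine Dv.sum _ _ fun b _ => Dv.sum _ _ fun k _ => ?_
    refine Dv.mul_right ?_ (hwi b k)
    refine hRco b _ ?_
    have h2 : j + 1 ≤ T := hT j hj
    have h3 : (X.p i : ℤ) * (j + 1) ≤ X.p i * T :=
      mul_le_mul_of_nonneg_left h2 (by positivity)
    have h4 : (l : ℤ) < X.p i := by exact_mod_cast hl
    have h5 : (0 : ℤ) ≤ (k : ℤ) := by positivity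
    linarith

end place

section ev
variable {X : Idx} {E : Type} [Field E] {A : PF X E}

theorem ev_mem (hA : A.Ax) (x : E) : X.Ev fun i => x ∈ A.O i := by
  by_cases hx : x = 0
  · rw [hx]
    exact Idx.Ev.of_forall fun i => (A.O i).zero_mem
  · exact (hA.pf2 x hx).mono fun i h => h.2.1

theorem ev_int (hA : A.Ax) (g : E[X]) : X.Ev fun i => A.Int i g := by
  have h1 := Idx.Ev.allFinset (X := X) (Finset.range (g.natDegree + 1))
    (S := fun n i => g.coeff n ∈ A.O i) fun n _ => ev_mem hA _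
  refine h1.mono fun i hi n => ?_
  by_cases hn : n < g.natDegree + 1
  · exact hi n (Finset.mem_range.mpr hn)
  · rw [coeff_eq_zero_of_natDegree_lt (by omega)]
    exact (A.O i).zero_mem

/-- **Kernel lemma.** `δ` is a row with entries in `E((λ))`, `Ψ` is compatible with it (`MComp`),
`w` is annihilated by `δ`, and `α` is a row annihilating `ker δ`; then `φ(α) Ψ w` is divisible by
`p ^ M` for almost all `p`. -/
theorem kernel (hA : A.Ax) (hA' : A.ext.Ax) (Z : Exn A) {ι : Type} [Fintype ι]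
    (δ : ι → LaurentSeries E) (w : ι → RatFunc E) (hw : ∑ b, δ b * Z.ex (w b) = 0)
    (α : ι → RatFunc E) (hα : ∀ w : ι → RatFunc E, ∑ b, δ b * Z.ex (w b) = 0 →
      ∑ b, α b * w b = 0) (C : ℕ) :
    ∃ T : ℤ, X.Ev fun i => ∀ (M n : ℕ) (Ψ : Matrix ι ι (RatFunc E)), MComp Z i n M C T δ Ψ →
      A.ext.Dv i M (∑ a, A.ext.phi i (α a) * ∑ b, Ψ a b * w b) := by
  classical
  choose g h hh hgh using fun b => Z.gen (w b)
  set H : E[X] := ∏ b, h b with hH
  set w' : ι → E[X] := fun b => g b * ∏ c ∈ Finset.univ.erase b, h c with hw'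
  have hH0 : aeval Z.lam H ≠ 0 := by
    rw [hH, map_prod]
    exact Finset.prod_ne_zero_iff.mpr fun b _ => hh b
  have hww : ∀ b, w b * aeval Z.lam H = aeval Z.lam (w' b) := by
    intro b
    rw [hH, ← Finset.mul_prod_erase Finset.univ h (Finset.mem_univ b), map_mul, ← mul_assoc, hgh,
      hw', ← map_mul]
  have hw0 : ∑ b, δ b * Z.ex (aeval Z.lam (w' b)) = 0 := by
    have h1 : ∀ b, δ b * Z.ex (aeval Z.lam (w' b)) =
        δ b * Z.ex (w b) * Z.ex (aeval Z.lam H) := by
      intro b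
      rw [← hww, map_mul]
      ring
    simp_rw [h1]
    rw [← Finset.sum_mul, hw, zero_mul]
  obtain ⟨W, hW⟩ : ∃ W, ∀ b, (w' b).natDegree ≤ W :=
    ⟨Finset.univ.sup fun b => (w' b).natDegree, fun b =>
      Finset.le_sup (f := fun b => (w' b).natDegree) (Finset.mem_univ b)⟩
  set D : ℕ := C + W with hD
  let f : ℤ → (ι × Fin (D + 1) → E) →ₗ[E] E := fun j =>
    { toFun := fun y => act δ D y j
      map_add' := fun y z => by
        simp only [act, Pi.add_apply, mul_add, Finset.sum_add_distrib]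
      map_smul' := fun c y => by
        simp only [act, Pi.smul_apply, smul_eq_mul, RingHom.id_apply, Finset.mul_sum]
        exact Finset.sum_congr rfl fun x _ => by ring }
  obtain ⟨J, hJ⟩ := exists_finset_ker f
  let F : (ι × Fin (D + 1) → E) →ₗ[E] (J → E) := LinearMap.pi fun j => f j
  obtain ⟨G, hG⟩ := exists_ginv F
  set r : ι × Fin (D + 1) → J → E := fun c j => G (Pi.single j 1) c with hr
  have hGr : ∀ (v : J → E) c, G v c = ∑ j : J, r c j * v j := by
    intro v c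
    have h1 : v = ∑ j : J, v j • (Pi.single j 1 : J → E) := by
      rw [← pi_eq_sum_univ' v]
    conv_lhs => rw [h1]
    rw [map_sum, Finset.sum_apply]
    refine Finset.sum_congr rfl fun j _ => ?_
    rw [map_smul, Pi.smul_apply, smul_eq_mul, mul_comm]
  have hr' : ∀ (y : ι × Fin (D + 1) → E), ∀ j ∈ J,
      act δ D (fun c => y c - ∑ j' : J, r c j' * act δ D y j') j = 0 := by
    intro y j hj
    have h1 : (fun c => y c - ∑ j' : J, r c j' * act δ D y j') = y - G (F y) := by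
      funext c
      rw [Pi.sub_apply, hGr]
      rfl
    rw [h1]
    have h2 : f j (y - G (F y)) = 0 := by
      rw [map_sub, sub_eq_zero]
      exact (congrFun (hG y) ⟨j, hj⟩).symm
    exact h2
  obtain ⟨T, hT⟩ : ∃ T : ℤ, ∀ j ∈ J, j < T := by
    obtain ⟨T, hT⟩ := J.bddAbove
    exact ⟨T + 1, fun j hj => Int.lt_add_one_of_le (hT hj)⟩
  refine ⟨T, ?_⟩
  have e1 : X.Ev fun i => ∀ b, A.Int i (w' b) := Idx.Ev.all fun b => ev_int hA _
  have e2 : X.Ev fun i => ∀ b, α b ∈ A.ext.O i := Idx.Ev.all fun b => ev_mem hA' _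
  have e3 : X.Ev fun i => ∀ c : (ι × Fin (D + 1)) × J, r c.1 c.2 ∈ A.O i :=
    Idx.Ev.all fun c => ev_mem hA _
  have e4 := hA'.pf2 _ hH0
  refine (((e1.and e2).and e3).and e4).mono ?_
  rintro i ⟨⟨⟨h1, h2⟩, h3⟩, h4⟩ M n Ψ hcomp
  have key := kernel_place hA' Z δ w' hw0 h1 α hα (fun b => hA'.phi_O i _ (h2 b)) M C n W D
    hW le_rfl J hJ r hr' (fun c j => hA.phi_O i _ (h3 (c, j))) T hT Ψ hcomp
  refine dv_of_mul_un h4 ?_
  convert key using 1
  rw [Finset.sum_mul]
  refine Finset.sum_congr rfl fun a _ => ?_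
  rw [mul_assoc, Finset.sum_mul]
  congr 1
  refine Finset.sum_congr rfl fun b _ => ?_
  rw [mul_assoc, hww]

end ev

end Pool.CUBE.D
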