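import Pool.Agent.H50.CUBE.D2
import Pool.Agent.H80.CM.Swap

set_option autoImplicit false
set_option linter.unusedVariables false
set_option linter.unusedSectionVars false

/-! Cube project, block D: matrices, the quotient by the kernel at one place. -/

namespace Pool.CUBE.D

open Matrix

variable {F : Type} [Field F] (O : Subring F) (p : ℕ)

/-- integral matrices -/
def MI {κ κ' : Type} (X : Matrix κ κ' F) : Prop := ∀ a b, X a b ∈ O

/-- matrices divisible by `p ^ M` -/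
def MD {κ κ' : Type} (M : ℕ) (X : Matrix κ κ' F) : Prop := ∀ a b, Dv O p M (X a b)

variable {O p} {κ κ' κ'' : Type} [Fintype κ] [Fintype κ'] [Fintype κ'']

theorem Dv.mono {M M' : ℕ} (h : M' ≤ M) {x : F} (hx : Dv O p M x) : Dv O p M' x := by
  obtain ⟨y, hy, rfl⟩ := hx
  refine ⟨(p : F) ^ (M - M') * y, O.mul_mem (O.pow_mem (natCast_mem O p) _) hy, ?_⟩
  rw [← mul_assoc, ← pow_add, Nat.add_sub_cancel' h]

theorem Dv.mem {M : ℕ} {x : F} (hx : Dv O p M x) : x ∈ O := by
  obtain ⟨y, hy, rfl⟩ := hx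
  exact O.mul_mem (O.pow_mem (natCast_mem O p) _) hy

theorem MD.mono {M M' : ℕ} (h : M' ≤ M) {X : Matrix κ κ' F} (hX : MD O p M X) : MD O p M' X :=
  fun a b => (hX a b).mono h

theorem MI.mul {X : Matrix κ κ' F} {Y : Matrix κ' κ'' F} (hX : MI O X) (hY : MI O Y) :
    MI O (X * Y) := fun a b => O.sum_mem fun c _ => O.mul_mem (hX a c) (hY c b)

theorem MI.add {X Y : Matrix κ κ' F} (hX : MI O X) (hY : MI O Y) :
    MI O (X + Y) := fun a b => O.add_mem (hX a b) (hY a b)

theorem MI.sub {X Y : Matrix κ κ' F} (hX : MI O X) (hY : MI O Y) :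
    MI O (X - Y) := fun a b => O.sub_mem (hX a b) (hY a b)

theorem MI.one [DecidableEq κ] : MI O (1 : Matrix κ κ F) := fun a b => by
  rw [Matrix.one_apply]
  split
  · exact O.one_mem
  · exact O.zero_mem

theorem MD.add {M : ℕ} {X Y : Matrix κ κ' F} (hX : MD O p M X) (hY : MD O p M Y) :
    MD O p M (X + Y) := fun a b => (hX a b).add (hY a b)

theorem MD.neg {M : ℕ} {X : Matrix κ κ' F} (hX : MD O p M X) :
    MD O p M (-X) := fun a b => (hX a b).neg

theorem MD.sub {M : ℕ} {X Y : Matrix κ κ' F} (hX : MD O p M X) (hY : MD O p M Y) :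
    MD O p M (X - Y) := by
  rw [sub_eq_add_neg]
  exact hX.add hY.neg

theorem MD.mul_left {M : ℕ} {X : Matrix κ' κ'' F} (hX : MD O p M X) {Y : Matrix κ κ' F}
    (hY : MI O Y) : MD O p M (Y * X) := fun a b =>
  Dv.sum _ _ fun c _ => (hX c b).mul_left (hY a c)

theorem MD.mul_right {M : ℕ} {X : Matrix κ κ' F} (hX : MD O p M X) {Y : Matrix κ' κ'' F}
    (hY : MI O Y) : MD O p M (X * Y) := fun a b =>
  Dv.sum _ _ fun c _ => (hX a c).mul_right (hY c b)

theorem MD.of_smul {M n : ℕ} (hp : (p : F) ≠ 0) {X : Matrix κ κ' F}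
    (hX : MD O p (n + M) ((p : F) ^ n • X)) : MD O p M X := by
  intro a b
  obtain ⟨y, hy, h⟩ := hX a b
  refine ⟨y, hy, ?_⟩
  rw [Matrix.smul_apply, smul_eq_mul, pow_add, mul_assoc] at h
  exact mul_left_cancel₀ (pow_ne_zero _ hp) h

/-- swapping the factors -/
theorem swapF (hp : (p : F) ≠ 0) (hloc : ∀ y ∈ O, (1 + (p : F) * y)⁻¹ ∈ O ∧ 1 + (p : F) * y ≠ 0)
    {q n M : ℕ} (hM : n < M) (A B : Matrix (Fin q) (Fin q) F) (hA : MI O A) (hB : MI O B)
    (h : MD O p M (A * B - (p : F) ^ n • 1)) : MD O p (M - n) (B * A - (p : F) ^ n • 1) := by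
  choose R hR hR2 using h
  let A' : Matrix (Fin q) (Fin q) O := fun a b => ⟨A a b, hA a b⟩
  let B' : Matrix (Fin q) (Fin q) O := fun a b => ⟨B a b, hB a b⟩
  let R' : Matrix (Fin q) (Fin q) O := fun a b => ⟨R a b, hR a b⟩
  have hmap : ∀ X Y : Matrix (Fin q) (Fin q) O, X.map O.subtype = Y.map O.subtype → X = Y :=
    fun X Y hXY => Matrix.map_injective Subtype.val_injective hXY
  have h1 : A' * B' = (p : O) ^ n • (1 : Matrix (Fin q) (Fin q) O) + (p : O) ^ M • R' := by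
    ext a b
    have h2 := hR2 a b
    rw [Matrix.sub_apply, sub_eq_iff_eq_add] at h2
    rw [Matrix.mul_apply, Matrix.add_apply, Matrix.smul_apply, Matrix.smul_apply]
    rw [Matrix.mul_apply, Matrix.smul_apply] at h2
    push_cast
    change (∑ c, A a c * B c b) = _
    rw [h2, add_comm]
    congr 1
    rw [Matrix.one_apply, Matrix.one_apply]
    split <;> simp
  obtain ⟨R'', h3⟩ := Pool.H80.CM.swap (O := O) (p := p) (by
      intro h0
      exact hp (by simpa using congrArg Subtype.val h0))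
    (by
      intro y
      have h4 := hloc y y.2
      refine IsUnit.of_mul_eq_one (⟨_, h4.1⟩ : O) ?_
      apply Subtype.ext
      push_cast
      exact mul_inv_cancel₀ h4.2) hM A' B' R' h1
  intro a b
  refine ⟨R'' a b, (R'' a b).2, ?_⟩
  have h5 := congrArg Subtype.val (congrFun (congrFun h3 a) b)
  rw [Matrix.mul_apply, Matrix.add_apply, Matrix.smul_apply, Matrix.smul_apply] at h5
  push_cast at h5
  change (∑ c, B a c * A c b) = _ at h5
  rw [Matrix.sub_apply, Matrix.mul_apply, h5, Matrix.smul_apply, Matrix.one_apply,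
    Matrix.one_apply]
  split <;> simp

/-- **The quotient at one place.** `R : F^ι → F^q` with section `S`; `φR`, `φS` the images under
the Frobenius lift; `Ψ` maps `ker R` to `ker φR`. Then `Φ` maps `ker φR` to `ker R`, and the
quotient matrices satisfy the Frobenius relations. -/
theorem quot_level (hp : (p : F) ≠ 0)
    (hloc : ∀ y ∈ O, (1 + (p : F) * y)⁻¹ ∈ O ∧ 1 + (p : F) * y ≠ 0)
    {ι : Type} [Fintype ι] [DecidableEq ι] {q n M : ℕ}
    (R φR : Matrix (Fin q) ι F) (S φS : Matrix ι (Fin q) F)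
    (hR : MI O R) (hφR : MI O φR) (hS : MI O S) (hφS : MI O φS)
    (hRS : R * S = 1) (hφRS : φR * φS = 1)
    (Φ Ψ : Matrix ι ι F) (hΦ : MI O Φ) (hΨ : MI O Ψ)
    (h1 : MD O p (2 * n + M + 1) (Φ * Ψ - (p : F) ^ n • 1))
    (h2 : MD O p (2 * n + M + 1) (Ψ * Φ - (p : F) ^ n • 1))
    (h3 : MD O p (2 * n + M + 1) (φR * Ψ * (1 - S * R))) :
    MD O p (M + 1) (R * Φ * (1 - φS * φR)) ∧
    MD O p (M + 1) ((R * Φ * φS) * (φR * Ψ * S) - (p : F) ^ n • 1) ∧
    MD O p (M + 1) ((φR * Ψ * S) * (R * Φ * φS) - (p : F) ^ n • 1) := by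
  have hQ : MD O p (2 * n + M + 1) ((φR * Ψ * S) * (R * Φ * φS) - (p : F) ^ n • 1) := by
    have e1 : (φR * Ψ * S) * (R * Φ * φS) - (p : F) ^ n • 1 =
        φR * (Ψ * Φ - (p : F) ^ n • 1) * φS - φR * Ψ * (1 - S * R) * (Φ * φS) := by
      have e2 : (p : F) ^ n • (1 : Matrix (Fin q) (Fin q) F) =
          φR * ((p : F) ^ n • (1 : Matrix ι ι F)) * φS := by
        rw [Matrix.mul_smul, Matrix.mul_one, Matrix.smul_mul, hφRS]
      rw [e2]
      simp only [Matrix.mul_sub, Matrix.sub_mul, Matrix.mul_assoc, Matrix.mul_one, Matrix.one_mul]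
      abel
    rw [e1]
    exact ((h2.mul_left hφR).mul_right hφS).sub (h3.mul_right (hΦ.mul hφS))
  have hQi : MI O (φR * Ψ * S) := (hφR.mul hΨ).mul hS
  have hPi : MI O (R * Φ * φS) := (hR.mul hΦ).mul hφS
  have hsw := swapF hp hloc (by omega : n < 2 * n + M + 1) _ _ hQi hPi hQ
  have h4 : MD O p (2 * n + M + 1) ((φR * Ψ * S) * (R * Φ * (1 - φS * φR))) := by
    have e1 : (φR * Ψ * S) * (R * Φ * (1 - φS * φR)) =
        φR * (Ψ * Φ - (p : F) ^ n • 1) * (1 - φS * φR) -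
          φR * Ψ * (1 - S * R) * (Φ * (1 - φS * φR)) := by
      have e2 : φR * ((p : F) ^ n • (1 : Matrix ι ι F)) * (1 - φS * φR) = 0 := by
        rw [Matrix.mul_smul, Matrix.mul_one, Matrix.smul_mul, Matrix.mul_sub, Matrix.mul_one,
          ← Matrix.mul_assoc, hφRS, Matrix.one_mul, sub_self, smul_zero]
      have e3 : φR * (Ψ * Φ - (p : F) ^ n • 1) * (1 - φS * φR) =
          φR * (Ψ * Φ) * (1 - φS * φR) := by
        rw [Matrix.mul_sub φR, Matrix.sub_mul, e2, sub_zero]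
      rw [e3]
      simp only [Matrix.mul_sub, Matrix.sub_mul, Matrix.mul_assoc, Matrix.mul_one, Matrix.one_mul]
      abel
    rw [e1]
    have i1 : MI O (1 - φS * φR) := MI.one.sub (hφS.mul hφR)
    exact ((h2.mul_left hφR).mul_right i1).sub (h3.mul_right (hΦ.mul i1))
  refine ⟨?_, hsw.mono (by omega), hQ.mono (by omega)⟩
  have h5 : MD O p (n + M + 1) ((p : F) ^ n • (R * Φ * (1 - φS * φR))) := by
    have e1 : (p : F) ^ n • (R * Φ * (1 - φS * φR)) =
        (R * Φ * φS) * ((φR * Ψ * S) * (R * Φ * (1 - φS * φR))) -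
          ((R * Φ * φS) * (φR * Ψ * S) - (p : F) ^ n • 1) * (R * Φ * (1 - φS * φR)) := by
      rw [Matrix.sub_mul, Matrix.smul_mul, Matrix.one_mul, ← Matrix.mul_assoc (R * Φ * φS)]
      abel
    rw [e1]
    have i1 : MI O (1 - φS * φR) := MI.one.sub (hφS.mul hφR)
    refine ((h4.mono (by omega)).mul_left hPi).sub ((hsw.mono (by omega)).mul_right
      ((hR.mul hΦ).mul i1))
  exact MD.of_smul hp (n := n) (M := M + 1) (by rwa [← add_assoc])

end Pool.CUBE.D
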