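import Pool.Agent.H50.CUBE.D3
import Pool.Agent.H80.CM.Poly

set_option autoImplicit false
set_option linter.unusedVariables false
set_option linter.unusedSectionVars false

/-! Cube project, block D: the quotient of a Frobenius system by the kernel of a compatible
functional, and positivity. -/

namespace Pool.CUBE.D

open Matrix Pool.CM Pool.H93.Cube

/-- coordinates of a quotient space, with a section -/
theorem exists_quot {F ι : Type} [Field F] [Fintype ι] [DecidableEq ι]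
    (W : Submodule F (ι → F)) :
    ∃ (q : ℕ) (R : Matrix (Fin q) ι F) (S : Matrix ι (Fin q) F), R * S = 1 ∧
      ∀ w, R *ᵥ w = 0 ↔ w ∈ W := by
  classical
  obtain ⟨b⟩ : Nonempty (Module.Basis (Fin (Module.finrank F ((ι → F) ⧸ W))) F ((ι → F) ⧸ W)) :=
    ⟨Module.finBasis F _⟩
  set q := Module.finrank F ((ι → F) ⧸ W)
  let r : (ι → F) →ₗ[F] (Fin q → F) := b.equivFun.toLinearMap.comp W.mkQ
  have hr : Function.Surjective r := b.equivFun.surjective.comp (Submodule.mkQ_surjective W)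
  obtain ⟨s, hs⟩ := LinearMap.exists_rightInverse_of_surjective r (LinearMap.range_eq_top.mpr hr)
  refine ⟨q, LinearMap.toMatrix' r, LinearMap.toMatrix' s, ?_, fun w => ?_⟩
  · rw [← LinearMap.toMatrix'_comp, hs, LinearMap.toMatrix'_id]
  · rw [LinearMap.toMatrix'_mulVec]
    have : r w = b.equivFun (W.mkQ w) := rfl
    rw [this, LinearEquiv.map_eq_zero_iff, Submodule.mkQ_apply, Submodule.Quotient.mk_eq_zero]

section
variable {X : Idx} {E : Type} [Field E] {A : PF X E}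

theorem hloc (hA : A.Ax) (i : X.I) :
    ∀ y ∈ A.O i, (1 + ((X.p i : ℕ) : E) * y)⁻¹ ∈ A.O i ∧ 1 + ((X.p i : ℕ) : E) * y ≠ 0 := by
  intro y hy
  have hl := Pool.H80.CM.loc hA i
  have h1 : ¬ ((X.p i : ℕ) : A.O i) ∣ (1 + ((X.p i : ℕ) : A.O i) * ⟨y, hy⟩) := by
    intro h
    have h2 : ((X.p i : ℕ) : A.O i) ∣ 1 := by
      have := dvd_sub h (dvd_mul_right ((X.p i : ℕ) : A.O i) (⟨y, hy⟩ : A.O i))
      rwa [add_sub_cancel_right] at this
    exact hl.nu (isUnit_of_dvd_one h2)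
  obtain ⟨u, hu⟩ := hl.mx _ h1
  have h3 : (1 + ((X.p i : ℕ) : E) * y) * (((u⁻¹ : (A.O i)ˣ) : A.O i) : E) = 1 := by
    have h4 := congrArg (Subtype.val) (Units.mul_inv u)
    rw [hu] at h4
    simpa using h4
  refine ⟨?_, left_ne_zero_of_mul_eq_one h3⟩
  rw [← eq_inv_of_mul_eq_one_right h3]
  exact Subtype.property _

theorem _root_.Pool.CUBE.D.MComp.mono {Z : Exn A} {i : X.I} {m : Type} [Fintype m] {n M C : ℕ}
    {T T' : ℤ} {δ : m → LaurentSeries E} {Psi : Matrix m m (RatFunc E)}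
    (h : MComp Z i n M C T' δ Psi) (hT : T ≤ T') : MComp Z i n M C T δ Psi := by
  obtain ⟨g, hg, h1, h2⟩ := h
  exact ⟨g, hg, h1, fun b k hk => h2 b k
    (hk.trans (mul_le_mul_of_nonneg_left hT (by positivity)))⟩

/-- the kernel of a functional with values in Laurent series -/
noncomputable def kerδ (Z : Exn A) {ι : Type} [Fintype ι] (δ : ι → LaurentSeries E) :
    Submodule (RatFunc E) (ι → RatFunc E) where
  carrier := {w | ∑ b, δ b * Z.ex (w b) = 0}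
  zero_mem' := by simp
  add_mem' := by
    intro v w hv hw
    simp only [Set.mem_ofPred_eq] at hv hw ⊢
    simp only [Pi.add_apply, map_add, mul_add, Finset.sum_add_distrib, hv, hw, add_zero]
  smul_mem' := by
    intro c w hw
    simp only [Set.mem_ofPred_eq] at hw ⊢
    have h1 : ∀ b, δ b * Z.ex ((c • w) b) = Z.ex c * (δ b * Z.ex (w b)) := by
      intro b
      rw [Pi.smul_apply, smul_eq_mul, map_mul]
      ring
    simp_rw [h1]
    rw [← Finset.mul_sum, hw, mul_zero]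

/-- Frobenius relations for a pair of matrices -/
structure FR {F : Type} [Field F] (B : PF X F) (i : X.I) {ι : Type} [Fintype ι] [DecidableEq ι]
    (n M : ℕ) (Φ Ψ : Matrix ι ι F) : Prop where
  iΦ : MI (B.O i) Φ
  iΨ : MI (B.O i) Ψ
  r1 : MD (B.O i) (X.p i) M (Φ * Ψ - ((X.p i : ℕ) : F) ^ n • 1)
  r2 : MD (B.O i) (X.p i) M (Ψ * Φ - ((X.p i : ℕ) : F) ^ n • 1)

/-- **The quotient by the kernel of a compatible functional.** -/
theorem quot (hA : A.Ax) (hA' : A.ext.Ax) (Z : Exn A) {ι : Type} [Fintype ι] [DecidableEq ι]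
    (δ : ι → LaurentSeries E) {q : ℕ} (R : Matrix (Fin q) ι (RatFunc E))
    (S : Matrix ι (Fin q) (RatFunc E)) (hRS : R * S = 1)
    (hR : ∀ w, R *ᵥ w = 0 ↔ ∑ b, δ b * Z.ex (w b) = 0) (C : ℕ) :
    ∃ T : ℤ, X.Ev fun i => ∀ (M n : ℕ) (Φ Ψ : Matrix ι ι (RatFunc E)),
      FR A.ext i n (2 * n + M + 1) Φ Ψ → MComp Z i n (2 * n + M + 1) C T δ Ψ →
      MD (A.ext.O i) (X.p i) (M + 1) (R * Φ * (1 - S.map (A.ext.phi i) * R.map (A.ext.phi i))) ∧
      MD (A.ext.O i) (X.p i) (2 * n + M + 1) (R.map (A.ext.phi i) * Ψ * (1 - S * R)) ∧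
      FR A.ext i n (M + 1) (R * Φ * S.map (A.ext.phi i)) (R.map (A.ext.phi i) * Ψ * S) := by
  classical
  have hker : ∀ b : ι, ∀ a : Fin q, ∃ T : ℤ, X.Ev fun i =>
      ∀ (M n : ℕ) (Ψ : Matrix ι ι (RatFunc E)), MComp Z i n M C T δ Ψ →
      A.ext.Dv i M (∑ c, A.ext.phi i (R a c) * ∑ d, Ψ c d *
        (1 - S * R : Matrix ι ι (RatFunc E)) d b) := by
    intro b a
    refine kernel hA hA' Z δ (fun d => (1 - S * R : Matrix ι ι (RatFunc E)) d b) ?_
      (fun c => R a c) ?_ C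
    · rw [← hR]
      have h1 : R * (1 - S * R) = 0 := by
        rw [Matrix.mul_sub, Matrix.mul_one, ← Matrix.mul_assoc, hRS, Matrix.one_mul, sub_self]
      funext c
      exact congrFun (congrFun h1 c) b
    · intro w hw
      exact congrFun ((hR w).mpr hw) a
  choose T hT using hker
  obtain ⟨T', hT'⟩ : ∃ T' : ℤ, ∀ b a, T b a ≤ T' := by
    obtain ⟨T', hT'⟩ := (Finset.univ.image fun c : ι × Fin q => T c.1 c.2).bddAbove
    exact ⟨T', fun b a => hT' (by simp)⟩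
  refine ⟨T', ?_⟩
  have e1 : X.Ev fun i => ∀ c : ι × Fin q,
      ∀ (M n : ℕ) (Ψ : Matrix ι ι (RatFunc E)), MComp Z i n M C (T c.1 c.2) δ Ψ →
      A.ext.Dv i M (∑ a, A.ext.phi i (R c.2 a) * ∑ d, Ψ a d *
        (1 - S * R : Matrix ι ι (RatFunc E)) d c.1) :=
    Idx.Ev.all fun c => hT c.1 c.2
  have e2 : X.Ev fun i => ∀ c : Fin q × ι, R c.1 c.2 ∈ A.ext.O i := Idx.Ev.all fun c => ev_mem hA' _
  have e3 : X.Ev fun i => ∀ c : ι × Fin q, S c.1 c.2 ∈ A.ext.O i := Idx.Ev.all fun c => ev_mem hA' _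
  refine ((e1.and e2).and e3).mono ?_
  rintro i ⟨⟨h1, h2⟩, h3⟩ M n Φ Ψ hF hMC
  set φ := A.ext.phi i with hφ
  have hRi : MI (A.ext.O i) R := fun a b => h2 (a, b)
  have hSi : MI (A.ext.O i) S := fun a b => h3 (a, b)
  have hφR : MI (A.ext.O i) (R.map φ) := fun a b => hA'.phi_O i _ (h2 (a, b))
  have hφS : MI (A.ext.O i) (S.map φ) := fun a b => hA'.phi_O i _ (h3 (a, b))
  have hφRS : R.map φ * S.map φ = 1 := by
    rw [← Matrix.map_mul, hRS, Matrix.map_one _ (map_zero φ) (map_one φ)]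
  have h4 : MD (A.ext.O i) (X.p i) (2 * n + M + 1) (R.map φ * Ψ * (1 - S * R)) := by
    intro a b
    have h5 := h1 (b, a) (2 * n + M + 1) n Ψ (hMC.mono (hT' b a))
    convert h5 using 1
    rw [Matrix.mul_assoc, Matrix.mul_apply]
    rfl
  have h6 := quot_level (Pool.H80.CM.p_ne hA' i) (hloc hA' i) R (R.map φ) S (S.map φ) hRi hφR
    hSi hφS hRS hφRS Φ Ψ hF.iΦ hF.iΨ hF.r1 hF.r2 h4
  exact ⟨h6.1, h4, (hRi.mul hF.iΦ).mul hφS, (hφR.mul hF.iΨ).mul hSi, h6.2.1, h6.2.2⟩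

/-- **Positivity.** If moreover `Φ = ∑ e_σ φ(χ_σ)` modulo `p`, and all `e_σ` have the same non-zero
image under `δ`, then `∑ χ_σ` kills the kernel of `δ`. -/
theorem positivity (hA : A.Ax) (hA' : A.ext.Ax) (Z : Exn A) {ι : Type} [Fintype ι]
    [DecidableEq ι] (δ : ι → LaurentSeries E) {q : ℕ} (R : Matrix (Fin q) ι (RatFunc E))
    (S : Matrix ι (Fin q) (RatFunc E)) (hRS : R * S = 1)
    (hR : ∀ w, R *ᵥ w = 0 ↔ ∑ b, δ b * Z.ex (w b) = 0) (n C : ℕ)
    {κ : Type} [Fintype κ] (e χ : κ → ι → RatFunc E) (eQ : Fin q → RatFunc E) (heQ : eQ ≠ 0)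
    (he : ∀ σ, R *ᵥ (e σ) = eQ)
    (hF : ∀ T : ℤ, X.Ev fun i => ∃ Φ Ψ : Matrix ι ι (RatFunc E),
      FR A.ext i n (2 * n + 1) Φ Ψ ∧ MComp Z i n (2 * n + 1) C T δ Ψ ∧
      ∀ a b, A.ext.Dv i 1 (Φ a b - ∑ σ, e σ a * A.ext.phi i (χ σ b)))
    (w : ι → RatFunc E) (hw : ∑ b, δ b * Z.ex (w b) = 0) : ∑ σ, ∑ b, χ σ b * w b = 0 := by
  classical
  by_contra hne
  set c := ∑ σ, ∑ b, χ σ b * w b with hc
  obtain ⟨T, hT⟩ := quot hA hA' Z δ R S hRS hR C
  obtain ⟨a0, ha0⟩ : ∃ a, eQ a ≠ 0 := by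
    by_contra hcon
    push Not at hcon
    exact heQ (funext hcon)
  have e1 : X.Ev fun i => ∀ b, w b ∈ A.ext.O i := Idx.Ev.all fun b => ev_mem hA' _
  have e2 : X.Ev fun i => ∀ c : Fin q × ι, R c.1 c.2 ∈ A.ext.O i := Idx.Ev.all fun c => ev_mem hA' _
  obtain ⟨i, -, ⟨⟨⟨⟨h1, h2⟩, h3⟩, h4⟩, h5⟩, h6⟩ := (((((hT.and (hF T)).and e1).and e2).and
    (hA'.pf2 _ ha0)).and (hA'.pf2 c hne)).exists 0
  obtain ⟨Φ, Ψ, hFR, hCmp, hΦ⟩ := h2
  set φ := A.ext.phi i with hφ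
  have h7 := (h1 0 n Φ Ψ hFR hCmp).1
  have hRw : R *ᵥ w = 0 := (hR w).mpr hw
  -- `R Φ φ(w) ≡ 0`
  have h8 : Dv (A.ext.O i) (X.p i) 1 ((R *ᵥ (Φ *ᵥ (fun b => φ (w b)))) a0) := by
    have e3 : R *ᵥ (Φ *ᵥ (fun b => φ (w b))) =
        (R * Φ * (1 - S.map φ * R.map φ)) *ᵥ (fun b => φ (w b)) := by
      have e4 : (R.map φ) *ᵥ (fun b => φ (w b)) = 0 := by
        funext a
        have := congrArg φ (congrFun hRw a)
        rw [Pi.zero_apply, map_zero] at this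
        rw [Pi.zero_apply, ← this]
        simp only [Matrix.mulVec, dotProduct, Matrix.map_apply, map_sum, map_mul]
      rw [Matrix.mul_sub, Matrix.sub_mulVec, Matrix.mul_one, ← Matrix.mul_assoc,
        ← Matrix.mulVec_mulVec (fun b => φ (w b)) (R * Φ * S.map φ) (R.map φ), e4,
        Matrix.mulVec_zero, sub_zero, Matrix.mulVec_mulVec]
    rw [e3]
    exact Dv.sum _ _ fun b _ => (h7 a0 b).mul_right (hA'.phi_O i _ (h3 b))
  have h9 : (R *ᵥ (Φ *ᵥ (fun b => φ (w b)))) a0 = eQ a0 * φ c +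
      ∑ a, R a0 a * ∑ b, (Φ a b - ∑ σ, e σ a * φ (χ σ b)) * φ (w b) := by
    have e5 : ∀ a, ∑ b, (Φ a b - ∑ σ, e σ a * φ (χ σ b)) * φ (w b) =
        (Φ *ᵥ (fun b => φ (w b))) a - ∑ σ, e σ a * φ (∑ b, χ σ b * w b) := by
      intro a
      simp only [sub_mul, Finset.sum_sub_distrib, Matrix.mulVec, dotProduct]
      congr 1
      simp only [Finset.sum_mul, map_sum, Finset.mul_sum, map_mul]
      rw [Finset.sum_comm]
      refine Finset.sum_congr rfl fun σ _ => Finset.sum_congr rfl fun b _ => by ring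
    simp_rw [e5, mul_sub, Finset.sum_sub_distrib]
    have e6 : ∑ a, R a0 a * ∑ σ, e σ a * φ (∑ b, χ σ b * w b) = eQ a0 * φ c := by
      simp_rw [Finset.mul_sum]
      rw [Finset.sum_comm, hc, map_sum, Finset.mul_sum]
      refine Finset.sum_congr rfl fun σ _ => ?_
      have := congrFun (he σ) a0
      rw [← this]
      simp only [Matrix.mulVec, dotProduct, Finset.sum_mul]
      exact Finset.sum_congr rfl fun a _ => by ring
    rw [e6]
    simp only [Matrix.mulVec, dotProduct]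
    ring
  have h10 : Dv (A.ext.O i) (X.p i) 1 (eQ a0 * φ c) := by
    have e7 : eQ a0 * φ c = (R *ᵥ (Φ *ᵥ (fun b => φ (w b)))) a0 +
        -(∑ a, R a0 a * ∑ b, (Φ a b - ∑ σ, e σ a * φ (χ σ b)) * φ (w b)) := by
      rw [h9]
      ring
    rw [e7]
    refine h8.add (Dv.neg (Dv.sum _ _ fun a _ => Dv.mul_left (Dv.sum _ _ fun b _ => ?_)
      (h4 (a0, a))))
    exact Dv.mul_right (hΦ a b) (hA'.phi_O i _ (h3 b))
  obtain ⟨y, hy, hy2⟩ := h10
  rw [pow_one] at hy2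
  apply hA'.p_inv i
  have hφc : φ c ≠ 0 := (map_ne_zero φ).mpr hne
  have hφci : (φ c)⁻¹ ∈ A.ext.O i := by
    rw [← map_inv₀]
    exact hA'.phi_O i _ h6.2.2
  have e8 : ((X.p i : ℕ) : RatFunc E)⁻¹ = y * ((eQ a0)⁻¹ * (φ c)⁻¹) := by
    have hp0 := Pool.H80.CM.p_ne hA' i
    rw [← mul_inv, hy2]
    have hy0 : y ≠ 0 := by
      intro h0
      rw [h0, mul_zero] at hy2
      exact mul_ne_zero ha0 hφc hy2
    rw [mul_inv, ← mul_assoc, mul_comm y, mul_assoc, mul_inv_cancel₀ hy0, mul_one]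
  rw [e8]
  exact (A.ext.O i).mul_mem hy ((A.ext.O i).mul_mem h5.2.2 hφci)

end

end Pool.CUBE.D
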