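import Pool.Agent.H50.CUBE.D4

set_option autoImplicit false
set_option linter.unusedVariables false
set_option linter.unusedSectionVars false

/-! Cube project, block D: linear algebra and differential algebra of a quotient. -/

namespace Pool.CUBE.D

open Matrix Pool.CM Pool.H93.Cube

theorem exists_basis_of_ne {F V : Type} [Field F] [AddCommGroup V] [Module F V]
    [FiniteDimensional F V] (x : V) (hx : x ≠ 0) :
    ∃ (q : ℕ) (e : Fin q) (b : Module.Basis (Fin q) F V), b e = x := by
  have hli : LinearIndepOn F id ({x} : Set V) := LinearIndepOn.singleton hx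
  let b0 := Module.Basis.extend hli
  have hfin : Finite (hli.extend (Set.subset_univ _)) := Module.Finite.finite_basis b0
  have := Fintype.ofFinite (hli.extend (Set.subset_univ _))
  let x0 : hli.extend (Set.subset_univ _) :=
    ⟨x, Module.Basis.subset_extend hli (Set.mem_singleton _)⟩
  let eq := Fintype.equivFin (hli.extend (Set.subset_univ _))
  refine ⟨_, eq x0, b0.reindex eq, ?_⟩
  rw [Module.Basis.reindex_apply, Equiv.symm_apply_apply, Module.Basis.extend_apply_self]

/-- coordinates of a quotient space with a given first coordinate vector, with a section -/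
theorem exists_quot' {F ι : Type} [Field F] [Fintype ι] [DecidableEq ι]
    (W : Submodule F (ι → F)) (v : ι → F) (hv : v ∉ W) :
    ∃ (q : ℕ) (eQ : Fin q) (R : Matrix (Fin q) ι F) (S : Matrix ι (Fin q) F), R * S = 1 ∧
      (∀ w, R *ᵥ w = 0 ↔ w ∈ W) ∧ R *ᵥ v = Pi.single eQ 1 := by
  classical
  have hx : W.mkQ v ≠ 0 := by
    rw [Submodule.mkQ_apply, Ne, Submodule.Quotient.mk_eq_zero]
    exact hv
  obtain ⟨q, eQ, b, hb⟩ := exists_basis_of_ne (F := F) _ hx
  let r : (ι → F) →ₗ[F] (Fin q → F) := b.equivFun.toLinearMap.comp W.mkQ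
  have hr : Function.Surjective r := b.equivFun.surjective.comp (Submodule.mkQ_surjective W)
  obtain ⟨s, hs⟩ := LinearMap.exists_rightInverse_of_surjective r (LinearMap.range_eq_top.mpr hr)
  refine ⟨q, eQ, LinearMap.toMatrix' r, LinearMap.toMatrix' s, ?_, fun w => ?_, ?_⟩
  · rw [← LinearMap.toMatrix'_comp, hs, LinearMap.toMatrix'_id]
  · rw [LinearMap.toMatrix'_mulVec]
    have : r w = b.equivFun (W.mkQ w) := rfl
    rw [this, LinearEquiv.map_eq_zero_iff, Submodule.mkQ_apply, Submodule.Quotient.mk_eq_zero]
  · rw [LinearMap.toMatrix'_mulVec]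
    have h1 : r v = b.equivFun (W.mkQ v) := rfl
    rw [h1, ← hb]
    funext j
    rw [Module.Basis.equivFun_self, Pi.single_apply]
    simp [eq_comm]

section der
variable {F : Type} [Field F] (d : Derivation ℤ F F) {κ κ' κ'' : Type} [Fintype κ] [Fintype κ']
  [Fintype κ'']

theorem mapD_mul (X : Matrix κ κ' F) (Y : Matrix κ' κ'' F) :
    (X * Y).map d = X.map d * Y + X * Y.map d := by
  ext a b
  rw [Matrix.map_apply, Matrix.mul_apply, map_sum, Matrix.add_apply, Matrix.mul_apply,
    Matrix.mul_apply, ← Finset.sum_add_distrib]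
  refine Finset.sum_congr rfl fun c _ => ?_
  rw [Derivation.leibniz, smul_eq_mul, smul_eq_mul, Matrix.map_apply, Matrix.map_apply]
  ring

theorem mapD_add (X Y : Matrix κ κ' F) : (X + Y).map d = X.map d + Y.map d := by
  ext a b
  simp

theorem mapD_sub (X Y : Matrix κ κ' F) : (X - Y).map d = X.map d - Y.map d := by
  ext a b
  simp

theorem mapD_one [DecidableEq κ] : (1 : Matrix κ κ F).map d = 0 := by
  ext a b
  rw [Matrix.map_apply, Matrix.one_apply]
  split <;> simp

/-- the connection of the quotient -/
noncomputable def GQ (R : Matrix κ κ' F) (S : Matrix κ' κ F) (G : Matrix κ' κ' F) :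
    Matrix κ κ F := R * (G * S + S.map d)

theorem GQ_spec [DecidableEq κ] [DecidableEq κ'] (R : Matrix κ κ' F) (S : Matrix κ' κ F)
    (G : Matrix κ' κ' F) (hRS : R * S = 1)
    (hst : ∀ w, R *ᵥ w = 0 → R *ᵥ (opF d G w) = 0) :
    R.map d + GQ d R S G * R = R * G := by
  have hπ : R * (1 - S * R) = 0 := by
    rw [Matrix.mul_sub, Matrix.mul_one, ← Matrix.mul_assoc, hRS, Matrix.one_mul, sub_self]
  have h1 : R * ((1 - S * R).map d + G * (1 - S * R)) = 0 := by
    ext a b
    have h2 : R *ᵥ (fun c => (1 - S * R : Matrix κ' κ' F) c b) = 0 := by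
      funext a
      exact congrFun (congrFun hπ a) b
    have h3 := congrFun (hst _ h2) a
    rw [Matrix.mul_apply]
    simp only [Matrix.mulVec, dotProduct, opF_apply, Pi.zero_apply] at h3
    simpa only [Matrix.add_apply, Matrix.map_apply, Matrix.mul_apply, Matrix.zero_apply] using h3
  rw [mapD_sub, mapD_one, mapD_mul] at h1
  have h4 : R.map d + GQ d R S G * R - R * G =
      -(R * (0 - (S.map d * R + S * R.map d) + G * (1 - S * R))) +
        (R.map d - R * S * R.map d) := by
    rw [GQ]
    simp only [Matrix.mul_sub, Matrix.mul_add, Matrix.add_mul, Matrix.mul_assoc, Matrix.mul_one,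
      Matrix.mul_zero]
    abel
  rw [h1, hRS, Matrix.one_mul, sub_self, neg_zero, add_zero] at h4
  exact sub_eq_zero.mp h4

theorem GQ_flat [DecidableEq κ] [DecidableEq κ'] (d' : Derivation ℤ F F)
    (hc : ∀ x, d (d' x) = d' (d x)) (R : Matrix κ κ' F) (S : Matrix κ' κ F) (hRS : R * S = 1)
    (G G' : Matrix κ' κ' F) (K K' : Matrix κ κ F)
    (h1 : R.map d + K * R = R * G) (h2 : R.map d' + K' * R = R * G')
    (hf : G'.map d + G * G' = G.map d' + G' * G) :
    K'.map d + K * K' = K.map d' + K' * K := by
  have e1 : (R.map d').map d + (K'.map d * R + K' * R.map d) = R.map d * G' + R * G'.map d := by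
    rw [← mapD_mul, ← mapD_add, h2, mapD_mul]
  have e2 : (R.map d).map d' + (K.map d' * R + K * R.map d') = R.map d' * G + R * G.map d' := by
    rw [← mapD_mul, ← mapD_add, h1, mapD_mul]
  have e3 : (R.map d').map d = (R.map d).map d' := by
    ext a b
    exact hc _
  have h1' : R.map d = R * G - K * R := eq_sub_of_add_eq h1
  have h2' : R.map d' = R * G' - K' * R := eq_sub_of_add_eq h2
  have e4 : (K'.map d + K * K') * R = (K.map d' + K' * K) * R := by
    have e5 : K'.map d * R + K' * R.map d - (K.map d' * R + K * R.map d') =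
        R.map d * G' + R * G'.map d - (R.map d' * G + R * G.map d') := by
      rw [← e1, ← e2, e3]
      abel
    rw [h1', h2'] at e5
    have hf' : R * (G'.map d) + R * (G * G') = R * (G.map d') + R * (G' * G) := by
      rw [← Matrix.mul_add, hf, Matrix.mul_add]
    rw [Matrix.add_mul, Matrix.add_mul]
    have e6 : K'.map d * R + K * K' * R - (K.map d' * R + K' * K * R) =
        (R * (G'.map d) + R * (G * G')) - (R * (G.map d') + R * (G' * G)) := by
      have e7 := e5
      simp only [Matrix.mul_sub, Matrix.sub_mul, Matrix.mul_assoc] at e7 ⊢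
      have e8 : ∀ a b c d e f g h i j k l : Matrix κ κ' F,
          a + (b - c) - (d + (e - f)) = g - h + i - (j - k + l) →
          a + f - (d + c) = i + g + (-h) + e - (l + j + (-k) + b) := by
        intro a b c d e f g h i j k l he
        have : a + f - (d + c) = a + (b - c) - (d + (e - f)) + e - b := by abel
        rw [this, he]
        abel
      have e9 := e8 _ _ _ _ _ _ _ _ _ _ _ _ e7
      rw [e9]
      abel
    rw [hf', sub_self] at e6
    exact sub_eq_zero.mp e6
  calc K'.map d + K * K' = (K'.map d + K * K') * R * S := by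
        rw [Matrix.mul_assoc, hRS, Matrix.mul_one]
    _ = (K.map d' + K' * K) * R * S := by rw [e4]
    _ = _ := by rw [Matrix.mul_assoc, hRS, Matrix.mul_one]

end der

end Pool.CUBE.D
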