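import Pool.Agent.H50.CUBE.D5

set_option autoImplicit false
set_option linter.unusedVariables false
set_option linter.unusedSectionVars false

/-! Cube project, block D: the quotient of a package by the kernel of a functional. -/

namespace Pool.CUBE.D

open Matrix Pool.CM Pool.H93.Cube

section t
variable {X : Idx} {F : Type} [Field F] {B : PF X F} {i : X.I}

theorem t_zero (hB : B.Ax) : (0 : F) ∈ B.t i 0 :=
  ⟨0, (B.pol i 0).zero_mem, 1, hB.den_one i, by simp⟩

theorem t_sum (hT : TCLStmt) (hB : B.Ax) {κ : Type} (s : Finset κ) (d : ℕ) (f : κ → F)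
    (hf : ∀ k ∈ s, f k ∈ B.t i d) : ∑ k ∈ s, f k ∈ B.t i (s.card * d) := by
  classical
  induction s using Finset.induction_on with
  | empty => simpa using t_zero hB
  | insert a s ha ih =>
    rw [Finset.sum_insert ha, Finset.card_insert_of_notMem ha]
    have h1 := (hT X F B hB i).2.2.1 _ _ _ _ (hf a (Finset.mem_insert_self _ _))
      (ih fun k hk => hf k (Finset.mem_insert_of_mem hk))
    have h2 : (s.card + 1) * d = d + s.card * d := by ring
    rwa [h2]

theorem t_mat (hT : TCLStmt) (hB : B.Ax) {κ κ' κ'' : Type} [Fintype κ'] (d e : ℕ)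
    (Y : Matrix κ κ' F) (Z : Matrix κ' κ'' F) (hY : ∀ a b, Y a b ∈ B.t i d)
    (hZ : ∀ a b, Z a b ∈ B.t i e) (a : κ) (b : κ'') :
    (Y * Z) a b ∈ B.t i (Fintype.card κ' * (d + e)) :=
  t_sum hT hB Finset.univ (d + e) _ fun c _ => (hT X F B hB i).2.2.2.1 _ _ _ _ (hY a c) (hZ c b)

theorem t_ev (hT : TCLStmt) (hTF : TFXStmt) (hB : B.Ax) {κ κ' : Type} [Fintype κ] [Fintype κ']
    (Y : Matrix κ κ' F) : ∃ d, X.Ev fun i => ∀ a b, Y a b ∈ B.t i d := by
  classical
  choose d hd using fun c : κ × κ' => hTF X F B hB (Y c.1 c.2)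
  refine ⟨Finset.univ.sup d, ?_⟩
  refine (Idx.Ev.all hd).mono fun i hi a b => ?_
  exact (hT X F B hB i).2.1 _ _ (Finset.le_sup (Finset.mem_univ (a, b))) (hi (a, b))

end t

/-- Frobenius pair at one place with several special vectors. -/
structure FrobS {X : Idx} {F : Type} [Field F] (B : PF X F) {m κ : Type} [Fintype m]
    [DecidableEq m] [Fintype κ] (G : B.J → Matrix m m F) (chi : κ → m → F) (e : κ → m) (n : ℕ)
    (i : X.I) (M C : ℕ) (Phi Phi' : Matrix m m F) : Prop where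
  t1 : ∀ a b, Phi a b ∈ B.t i (C * X.p i)
  t2 : ∀ a b, Phi' a b ∈ B.t i (C * X.p i)
  m1 : Cong (B.O i) (X.p i) M (Phi'.transpose * Phi) ((X.p i : F) ^ n • 1)
  m2 : Cong (B.O i) (X.p i) M (Phi * Phi'.transpose) ((X.p i : F) ^ n • 1)
  h1 : ∀ a, Cong (B.O i) (X.p i) M (Phi.map (B.D a) + G a * Phi)
    ((X.p i : F) • (Phi * (G a).map (B.phi i)))
  h2 : ∀ a, Cong (B.O i) (X.p i) M (Phi'.map (B.D a) - (G a).transpose * Phi')
    (-((X.p i : F) • (Phi' * ((G a).map (B.phi i)).transpose)))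
  col : ∀ σ a, Phi a (e σ) - (if a = e σ then 1 else 0) ∈ pI (B.O i) (X.p i) M
  gap : ∀ a b, Phi a b - ∑ σ, (if a = e σ then B.phi i (chi σ b) else 0) ∈ pI (B.O i) (X.p i) 1

section lev
variable {F : Type} [Field F] {O : Subring F} {p : ℕ} {m : Type} [Fintype m] [DecidableEq m]
  {q : ℕ}

theorem mapD_phi (d : Derivation ℤ F F) (φ : F →+* F) (hdφ : ∀ x, d (φ x) = (p : F) * φ (d x))
    {κ κ' : Type} (Y : Matrix κ κ' F) : (Y.map φ).map d = (p : F) • (Y.map d).map φ := by
  ext a b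
  exact hdφ _

/-- horizontality of the quotient Frobenius `Φ_Q` -/
theorem hor1 (d : Derivation ℤ F F) (φ : F →+* F) (hdφ : ∀ x, d (φ x) = (p : F) * φ (d x))
    {M : ℕ} (R : Matrix (Fin q) m F) (S : Matrix m (Fin q) F) (G : Matrix m m F)
    (K : Matrix (Fin q) (Fin q) F) (hRS : R * S = 1) (hK : R.map d + K * R = R * G)
    (hKG : K = R * (G * S + S.map d))
    (Φ : Matrix m m F) (hR : MI O R) (hφS : MI O (S.map φ)) (hGS : MI O ((G * S + S.map d).map φ))
    (h1 : MD O p M (Φ.map d + G * Φ - (p : F) • (Φ * G.map φ)))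
    (h2 : MD O p M (R * Φ * (1 - S.map φ * R.map φ))) :
    MD O p M ((R * Φ * S.map φ).map d + K * (R * Φ * S.map φ) -
      (p : F) • ((R * Φ * S.map φ) * K.map φ)) := by
  have hK' : R.map d = R * G - K * R := eq_sub_of_add_eq hK
  have e0 : K.map φ = R.map φ * (G * S + S.map d).map φ := by
    rw [hKG, Matrix.map_mul]
  have e1 : (R * Φ * S.map φ).map d + K * (R * Φ * S.map φ) -
      (p : F) • ((R * Φ * S.map φ) * K.map φ) =
      R * (Φ.map d + G * Φ - (p : F) • (Φ * G.map φ)) * S.map φ +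
      (R * Φ * (1 - S.map φ * R.map φ)) * ((p : F) • (G * S + S.map d).map φ) := by
    have e2 : (G * S + S.map d).map φ = G.map φ * S.map φ + (S.map d).map φ := by
      ext a b
      simp [Matrix.mul_apply]
    rw [mapD_mul, mapD_mul, mapD_phi (p := p) d φ hdφ S, hK', e0]
    rw [e2]
    simp only [Matrix.mul_sub, Matrix.sub_mul, Matrix.mul_add, Matrix.add_mul, Matrix.mul_assoc,
      Matrix.mul_one, Matrix.mul_smul, Matrix.smul_mul, smul_add, smul_sub]
    abel
  rw [e1]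
  refine ((h1.mul_left hR).mul_right hφS).add (h2.mul_right ?_)
  intro a b
  rw [Matrix.smul_apply, smul_eq_mul]
  exact O.mul_mem (natCast_mem O p) (hGS a b)

/-- horizontality of the quotient Frobenius `Ψ_Q` -/
theorem hor2 (d : Derivation ℤ F F) (φ : F →+* F) (hdφ : ∀ x, d (φ x) = (p : F) * φ (d x))
    {M : ℕ} (R : Matrix (Fin q) m F) (S : Matrix m (Fin q) F) (G : Matrix m m F)
    (K : Matrix (Fin q) (Fin q) F) (hRS : R * S = 1) (hK : R.map d + K * R = R * G)
    (hKG : K = R * (G * S + S.map d))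
    (Ψ : Matrix m m F) (hφR : MI O (R.map φ)) (hS : MI O S) (hGS : MI O (G * S + S.map d))
    (h1 : MD O p M (Ψ.map d - Ψ * G + (p : F) • (G.map φ * Ψ)))
    (h2 : MD O p M (R.map φ * Ψ * (1 - S * R))) :
    MD O p M ((R.map φ * Ψ * S).map d - (R.map φ * Ψ * S) * K +
      (p : F) • (K.map φ * (R.map φ * Ψ * S))) := by
  have hK' : R.map d = R * G - K * R := eq_sub_of_add_eq hK
  have e1 : (R.map φ * Ψ * S).map d - (R.map φ * Ψ * S) * K +
      (p : F) • (K.map φ * (R.map φ * Ψ * S)) =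
      R.map φ * (Ψ.map d - Ψ * G + (p : F) • (G.map φ * Ψ)) * S +
      (R.map φ * Ψ * (1 - S * R)) * (G * S + S.map d) := by
    have e2 : (R.map d).map φ = R.map φ * G.map φ - K.map φ * R.map φ := by
      rw [hK', Matrix.map_sub φ (map_sub φ), Matrix.map_mul, Matrix.map_mul]
    have e3 : (R.map φ * Ψ * S) * K = R.map φ * Ψ * S * R * (G * S + S.map d) := by
      rw [hKG]
      simp only [Matrix.mul_assoc]
    rw [e3, mapD_mul, mapD_mul, mapD_phi (p := p) d φ hdφ R, e2]
    simp only [Matrix.mul_sub, Matrix.sub_mul, Matrix.mul_add, Matrix.add_mul, Matrix.mul_assoc,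
      Matrix.mul_one, Matrix.mul_smul, Matrix.smul_mul, smul_sub]
    abel
  rw [e1]
  exact ((h1.mul_left hφR).mul_right hS).add (h2.mul_right hGS)

end lev

end Pool.CUBE.D
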