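import Pool.Agent.H50.CUBE.D6

set_option autoImplicit false
set_option linter.unusedVariables false
set_option linter.unusedSectionVars false

/-! Cube project, block D: **the quotient package theorem**. -/

namespace Pool.CUBE.D

open Matrix Pool.CM Pool.H93.Cube

section
variable {X : Idx} {E : Type} [Field E] {A : PF X E}

theorem dv_iff {F : Type} [Field F] {B : PF X F} {i : X.I} {M : ℕ} {x : F} :
    x ∈ pI (B.O i) (X.p i) M ↔ Dv (B.O i) (X.p i) M x := Iff.rfl

theorem mulVec_single_one' {F κ m : Type} [Field F] [Fintype m] [DecidableEq m]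
    (R : Matrix κ m F) (b : m) : R *ᵥ (Pi.single b 1) = fun a => R a b := by
  funext a
  simp

/-- **The quotient package theorem.** A (multi-)package over `E(x)` with special vectors `e σ` and
functionals `chi σ`, and a functional `δ` with values in Laurent series compatible with the
Frobenius matrices, which takes the same non-zero value on all `e σ` and whose kernel is stable
under the connection: the quotient by the kernel of `δ` is a package. -/
theorem quotPkg (hT : TCLStmt) (hTF : TFXStmt) (hA : A.Ax) (hA' : A.ext.Ax) (Z : Exn A)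
    {m κ : Type} [Fintype m] [DecidableEq m] [Fintype κ] [DecidableEq κ] [Nonempty κ]
    (G : A.ext.J → Matrix m m (RatFunc E)) (chi : κ → m → RatFunc E) (e : κ → m) (n : ℕ)
    (flat : ∀ a b, (G b).map (A.ext.D a) + G a * G b = (G a).map (A.ext.D b) + G b * G a)
    (Ge : ∀ σ a x, G a x (e σ) = 0)
    (chie : ∀ σ τ, chi σ (e τ) = if σ = τ then 1 else 0)
    (δ : m → LaurentSeries E) (hδ : ∀ σ τ, δ (e σ) = δ (e τ)) (hδ0 : ∀ σ, δ (e σ) ≠ 0)
    [Finite A.J] (hst : ∀ a (w : m → RatFunc E), ∑ b, δ b * Z.ex (w b) = 0 →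
      ∑ b, δ b * Z.ex (opF (A.ext.D a) (G a) w b) = 0)
    (hF : ∀ M, ∃ C, ∀ T : ℤ, X.Ev fun i => ∃ Phi Phi' : Matrix m m (RatFunc E),
      FrobS A.ext G chi e n i M C Phi Phi' ∧ MComp Z i n M C T δ Phi'.transpose) :
    ∃ (q : ℕ) (eQ : Fin q) (GQ : A.ext.J → Matrix (Fin q) (Fin q) (RatFunc E))
      (chiQ : Fin q → RatFunc E) (R : Matrix (Fin q) m (RatFunc E)),
      Pkg A.ext GQ chiQ eQ n ∧ (∀ w, R *ᵥ w = 0 ↔ ∑ b, δ b * Z.ex (w b) = 0) ∧
      (∀ a, R.map (A.ext.D a) + GQ a * R = R * G a) ∧
      (∀ σ x, R x (e σ) = if x = eQ then 1 else 0) ∧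
      (∀ b, ∑ x, chiQ x * R x b = ∑ σ, chi σ b) := by
  classical
  obtain ⟨σ0⟩ := ‹Nonempty κ›
  have hsingle : ∀ c : m, ∑ b, δ b * Z.ex ((Pi.single c 1 : m → RatFunc E) b) = δ c := by
    intro c
    rw [Finset.sum_eq_single c]
    · simp
    · intro b _ hb
      rw [Pi.single_eq_of_ne hb, map_zero, mul_zero]
    · intro h
      exact absurd (Finset.mem_univ _) h
  obtain ⟨q, eQ, R, S, hRS, hR, hRe0⟩ := exists_quot' (kerδ Z δ) (Pi.single (e σ0) 1) (by
    intro h
    have h1 : ∑ b, δ b * Z.ex ((Pi.single (e σ0) 1 : m → RatFunc E) b) = 0 := h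
    rw [hsingle] at h1
    exact hδ0 σ0 h1)
  have hR : ∀ w, R *ᵥ w = 0 ↔ ∑ b, δ b * Z.ex (w b) = 0 := hR
  have hRe : ∀ σ, R *ᵥ (Pi.single (e σ) 1) = Pi.single eQ 1 := by
    intro σ
    rw [← hRe0, ← sub_eq_zero, ← Matrix.mulVec_sub, hR]
    simp only [Pi.sub_apply, map_sub, mul_sub, Finset.sum_sub_distrib]
    rw [hsingle, hsingle, hδ σ σ0, sub_self]
  have hReq : ∀ σ x, R x (e σ) = if x = eQ then 1 else 0 := by
    intro σ x
    have := congrFun (hRe σ) x
    rw [mulVec_single_one', Pi.single_apply] at this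
    exact this
  have hstR : ∀ a w, R *ᵥ w = 0 → R *ᵥ (opF (A.ext.D a) (G a) w) = 0 := by
    intro a w hw
    rw [hR] at hw ⊢
    exact hst a w hw
  set K : A.ext.J → Matrix (Fin q) (Fin q) (RatFunc E) := fun a =>
    GQ (A.ext.D a) R S (G a) with hKdef
  have hK : ∀ a, R.map (A.ext.D a) + K a * R = R * G a := fun a =>
    GQ_spec (A.ext.D a) R S (G a) hRS (hstR a)
  set chiT : m → RatFunc E := fun b => ∑ σ, chi σ b with hchiT
  set chiQ : Fin q → RatFunc E := fun x => ∑ b, chiT b * S b x with hchiQ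
  -- positivity
  have hpos : ∀ w : m → RatFunc E, ∑ b, δ b * Z.ex (w b) = 0 → ∑ σ, ∑ b, chi σ b * w b = 0 := by
    obtain ⟨C, hC⟩ := hF (2 * n + 1)
    refine positivity hA hA' Z δ R S hRS hR n C (fun σ => Pi.single (e σ) 1) chi
      (Pi.single eQ 1) ?_ hRe ?_
    · intro h
      have := congrFun h eQ
      rw [Pi.single_eq_same, Pi.zero_apply] at this
      exact one_ne_zero this
    · intro T
      refine (hC T).mono ?_
      rintro i ⟨Phi, Phi', hFr, hMC⟩
      refine ⟨Phi, Phi'.transpose, ⟨fun a b => (hT X _ A.ext hA' i).1 _ _ (hFr.t1 a b),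
        fun a b => (hT X _ A.ext hA' i).1 _ _ (hFr.t2 b a), hFr.m2, hFr.m1⟩, hMC, fun a b => ?_⟩
      have h1 := hFr.gap a b
      have h2 : ∑ σ, (Pi.single (e σ) 1 : m → RatFunc E) a * A.ext.phi i (chi σ b) =
          ∑ σ, (if a = e σ then A.ext.phi i (chi σ b) else 0) := by
        refine Finset.sum_congr rfl fun σ _ => ?_
        rw [Pi.single_apply]
        split <;> simp
      rw [h2]
      exact h1
  have hchiTw : ∀ w : m → RatFunc E, ∑ b, δ b * Z.ex (w b) = 0 → ∑ b, chiT b * w b = 0 := by
    intro w hw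
    have := hpos w hw
    rw [Finset.sum_comm] at this
    rw [← this]
    exact Finset.sum_congr rfl fun b _ => by rw [hchiT, Finset.sum_mul]
  have hπ : ∀ b, ∑ c, δ c * Z.ex ((1 - S * R : Matrix m m (RatFunc E)) c b) = 0 := by
    intro b
    rw [← hR (fun c => (1 - S * R : Matrix m m (RatFunc E)) c b)]
    have h1 : R * (1 - S * R) = 0 := by
      rw [Matrix.mul_sub, Matrix.mul_one, ← Matrix.mul_assoc, hRS, Matrix.one_mul, sub_self]
    funext a
    exact congrFun (congrFun h1 a) b
  have hchiQR : ∀ b, ∑ x, chiQ x * R x b = chiT b := by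
    intro b
    have h1 := hchiTw _ (hπ b)
    simp only [Matrix.sub_apply, mul_sub, Finset.sum_sub_distrib] at h1
    have h2 : ∑ c, chiT c * (1 : Matrix m m (RatFunc E)) c b = chiT b := by
      rw [Finset.sum_eq_single b]
      · simp
      · intro c _ hc
        rw [Matrix.one_apply_ne hc, mul_zero]
      · intro h
        exact absurd (Finset.mem_univ _) h
    rw [h2, sub_eq_zero] at h1
    rw [h1]
    simp only [hchiQ, Finset.sum_mul, Matrix.mul_apply, Finset.mul_sum]
    rw [Finset.sum_comm]
    exact Finset.sum_congr rfl fun c _ => Finset.sum_congr rfl fun x _ => by ring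
  have hchiTe : ∀ τ, chiT (e τ) = 1 := by
    intro τ
    rw [hchiT]
    simp only
    rw [Finset.sum_eq_single τ]
    · rw [chie, if_pos rfl]
    · intro σ _ hσ
      rw [chie, if_neg hσ]
    · intro h
      exact absurd (Finset.mem_univ _) h
  have hchiQe : chiQ eQ = 1 := by
    rw [← hchiTe σ0, ← hchiQR (e σ0), Finset.sum_eq_single eQ]
    · rw [hReq, if_pos rfl, mul_one]
    · intro x _ hx
      rw [hReq, if_neg hx, mul_zero]
    · intro h
      exact absurd (Finset.mem_univ _) h
  have hKe : ∀ a x, K a x eQ = 0 := by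
    intro a x
    have h1 := congrFun (congrFun (hK a) x) (e σ0)
    rw [Matrix.add_apply, Matrix.map_apply, Matrix.mul_apply, Matrix.mul_apply, hReq] at h1
    have h2 : A.ext.D a (if x = eQ then (1 : RatFunc E) else 0) = 0 := by
      split <;> simp
    rw [h2, zero_add, Finset.sum_eq_single eQ, hReq, if_pos rfl, mul_one] at h1
    · rw [h1]
      exact Finset.sum_eq_zero fun c _ => by rw [Ge, mul_zero]
    · intro y _ hy
      rw [hReq, if_neg hy, mul_zero]
    · intro h
      exact absurd (Finset.mem_univ _) h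
  refine ⟨q, eQ, K, chiQ, R, ⟨?_, hKe, hchiQe, ?_⟩, hR, hK, hReq, hchiQR⟩
  · intro a b
    exact GQ_flat (A.ext.D a) (A.ext.D b) (hA'.D_comm a b) R S hRS (G a) (G b) (K a) (K b) (hK a)
      (hK b) (flat a b)
  · intro M
    obtain ⟨C, hC⟩ := hF (2 * n + M + 1)
    obtain ⟨T, hQ⟩ := quot hA hA' Z δ R S hRS hR C
    obtain ⟨dR, hdR⟩ := t_ev hT hTF hA' R
    obtain ⟨dS, hdS⟩ := t_ev hT hTF hA' S
    refine ⟨Fintype.card m * ((Fintype.card m * (dR + C)) + dS) +
      Fintype.card m * ((Fintype.card m * (dR + C)) + dS), ?_⟩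
    have e1 : X.Ev fun i => ∀ c : Fin q × m, R c.1 c.2 ∈ A.ext.O i :=
      Idx.Ev.all fun c => ev_mem hA' _
    have e2 : X.Ev fun i => ∀ c : m × Fin q, S c.1 c.2 ∈ A.ext.O i :=
      Idx.Ev.all fun c => ev_mem hA' _
    have e3 : X.Ev fun i => ∀ x : Fin q, chiQ x ∈ A.ext.O i := Idx.Ev.all fun c => ev_mem hA' _
    have e4 : X.Ev fun i => ∀ c : κ × m, chi c.1 c.2 ∈ A.ext.O i :=
      Idx.Ev.all fun c => ev_mem hA' _
    have e5 : X.Ev fun i => ∀ c : Σ _ : A.ext.J, m × m, G c.1 c.2.1 c.2.2 ∈ A.ext.O i := by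
      have : Finite A.ext.J := inferInstanceAs (Finite (Option A.J))
      exact Idx.Ev.all fun c => ev_mem hA' _
    refine (((((((hC T).and hQ).and (hdR.and hdS)).and e1).and e2).and (e3.and e4)).and e5).mono ?_
    rintro i ⟨⟨⟨⟨⟨⟨⟨Phi, Phi', hFr, hMC⟩, hQ⟩, hdR, hdS⟩, h1⟩, h2⟩, h3, h4⟩, h5⟩
    have hp := (X.hp i).pos
    set φ := A.ext.phi i with hφ
    have tcl := hT X _ A.ext hA' i
    have hPi : MI (A.ext.O i) Phi := fun a b => tcl.1 _ _ (hFr.t1 a b)
    have hΨi : MI (A.ext.O i) Phi'.transpose := fun a b => tcl.1 _ _ (hFr.t2 b a)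
    have hRi : MI (A.ext.O i) R := fun a b => h1 (a, b)
    have hSi : MI (A.ext.O i) S := fun a b => h2 (a, b)
    have hφR : MI (A.ext.O i) (R.map φ) := fun a b => hA'.phi_O i _ (h1 (a, b))
    have hφS : MI (A.ext.O i) (S.map φ) := fun a b => hA'.phi_O i _ (h2 (a, b))
    obtain ⟨q1, q2, q3⟩ := hQ M n Phi Phi'.transpose ⟨hPi, hΨi, hFr.m2, hFr.m1⟩ hMC
    have hdφ : ∀ a x, A.ext.D a (φ x) = (X.p i : RatFunc E) * φ (A.ext.D a x) := fun a x =>
      hA'.D_phi i a x
    -- complexity
    have hdR' : ∀ a b, R.map φ a b ∈ A.ext.t i (dR * X.p i) := fun a b => by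
      have := tcl.2.2.2.2.2.1 _ _ (hdR a b)
      rwa [mul_comm] at this
    have hdS' : ∀ a b, S.map φ a b ∈ A.ext.t i (dS * X.p i) := fun a b => by
      have := tcl.2.2.2.2.2.1 _ _ (hdS a b)
      rwa [mul_comm] at this
    have tmono : ∀ d, ∀ x ∈ A.ext.t i d, ∀ e, d ≤ e → x ∈ A.ext.t i e := fun d x hx e hde =>
      tcl.2.1 _ _ hde hx
    have hle : ∀ d, d ≤ d * X.p i := fun d => Nat.le_mul_of_pos_right d hp
    have hT1 : ∀ a b, (R * Phi * S.map φ) a b ∈ A.ext.t i
        ((Fintype.card m * ((Fintype.card m * (dR + C)) + dS) +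
          Fintype.card m * ((Fintype.card m * (dR + C)) + dS)) * X.p i) := by
      intro a b
      have u1 : ∀ a b, R a b ∈ A.ext.t i (dR * X.p i) := fun a b =>
        tmono _ _ (hdR a b) _ (hle dR)
      have u2 := t_mat hT hA' (i := i) _ _ R Phi u1 hFr.t1
      have u3 := t_mat hT hA' (i := i) _ _ (R * Phi) (S.map φ) u2 hdS' a b
      refine tmono _ _ u3 _ (le_trans (le_of_eq ?_) (Nat.mul_le_mul_right _ (Nat.le_add_right _ _)))
      ring
    have hT2 : ∀ a b, (R.map φ * Phi'.transpose * S) a b ∈ A.ext.t i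
        ((Fintype.card m * ((Fintype.card m * (dR + C)) + dS) +
          Fintype.card m * ((Fintype.card m * (dR + C)) + dS)) * X.p i) := by
      intro a b
      have u1 : ∀ a b, S a b ∈ A.ext.t i (dS * X.p i) := fun a b =>
        tmono _ _ (hdS a b) _ (hle dS)
      have u2 := t_mat hT hA' (i := i) _ _ (R.map φ) Phi'.transpose hdR' (fun a b => hFr.t2 b a)
      have u3 := t_mat hT hA' (i := i) _ _ (R.map φ * Phi'.transpose) S u2 u1 a b
      refine tmono _ _ u3 _ (le_trans (le_of_eq ?_) (Nat.mul_le_mul_right _ (Nat.le_add_right _ _)))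
      ring
    have hGSi : ∀ a, MI (A.ext.O i) (G a * S + S.map (A.ext.D a)) := fun a => by
      refine MI.add (MI.mul (fun x y => h5 ⟨a, x, y⟩) hSi) ?_
      exact fun x y => hA'.D_O i a _ (hSi x y)
    have hGSφ : ∀ a, MI (A.ext.O i) ((G a * S + S.map (A.ext.D a)).map φ) := fun a x y =>
      hA'.phi_O i _ (hGSi a x y)
    refine ⟨R * Phi * S.map φ, (R.map φ * Phi'.transpose * S).transpose, ?_⟩
    have hM1 : M ≤ 2 * n + M + 1 := by omega
    have hM2 : M ≤ M + 1 := by omega
    refine ⟨hT1, fun a b => hT2 b a, ?_, ?_, fun a => ?_, fun a => ?_, fun a => ?_, ?_⟩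
    · rw [Matrix.transpose_transpose]
      exact q3.r2.mono hM2
    · rw [Matrix.transpose_transpose]
      exact q3.r1.mono hM2
    · refine hor1 (O := A.ext.O i) (A.ext.D a) φ (hdφ a) R S (G a) (K a) hRS (hK a) rfl Phi hRi
        hφS (hGSφ a) ?_ (q1.mono hM2)
      intro x y
      exact Dv.mono hM1 (hFr.h1 a x y)
    · have h6 := hor2 (O := A.ext.O i) (A.ext.D a) φ (hdφ a) (M := M) R S (G a) (K a) hRS (hK a)
        rfl Phi'.transpose hφR hSi (hGSi a) ?_ (q2.mono hM1)
      · intro x y
        have h7 := h6 y x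
        have h8 : ((R.map φ * Phi'.transpose * S).transpose.map (A.ext.D a) -
            (K a).transpose * (R.map φ * Phi'.transpose * S).transpose) x y -
            (-((X.p i : RatFunc E) • ((R.map φ * Phi'.transpose * S).transpose *
              ((K a).map φ).transpose))) x y =
            ((R.map φ * Phi'.transpose * S).map (A.ext.D a) - (R.map φ * Phi'.transpose * S) * K a +
              (X.p i : RatFunc E) • ((K a).map φ * (R.map φ * Phi'.transpose * S))) y x := by
          rw [← Matrix.transpose_mul, ← Matrix.transpose_mul]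
          simp only [Matrix.sub_apply, Matrix.add_apply, Matrix.neg_apply, Matrix.smul_apply,
            Matrix.map_apply, Matrix.transpose_apply]
          ring
        rw [h8]
        exact h7
      · intro x y
        have h7 := hFr.h2 a y x
        have h8 : (Phi'.transpose.map (A.ext.D a) - Phi'.transpose * G a +
            (X.p i : RatFunc E) • ((G a).map φ * Phi'.transpose)) x y =
            (Phi'.map (A.ext.D a) - (G a).transpose * Phi') y x -
            (-((X.p i : RatFunc E) • (Phi' * ((G a).map φ).transpose))) y x := by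
          have h9 : (Phi'.transpose * G a) x y = ((G a).transpose * Phi') y x := by
            rw [← Matrix.transpose_apply (Phi'.transpose * G a), Matrix.transpose_mul,
              Matrix.transpose_transpose]
          have h10 : ((G a).map φ * Phi'.transpose) x y = (Phi' * ((G a).map φ).transpose) y x := by
            rw [← Matrix.transpose_apply ((G a).map φ * Phi'.transpose), Matrix.transpose_mul,
              Matrix.transpose_transpose]
          simp only [Matrix.sub_apply, Matrix.add_apply, Matrix.neg_apply, Matrix.smul_apply,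
            Matrix.map_apply, Matrix.transpose_apply, h9, h10]
          ring
        rw [h8]
        exact Dv.mono hM1 h7
    · -- column
      have h6 := (q1.mono hM2) a (e σ0)
      have h7 : (R * Phi * (1 - S.map φ * R.map φ) : Matrix (Fin q) m (RatFunc E)) a (e σ0) =
          (R * Phi) a (e σ0) - (R * Phi * S.map φ) a eQ := by
        rw [Matrix.mul_sub, Matrix.mul_one, Matrix.sub_apply, ← Matrix.mul_assoc,
          Matrix.mul_apply (M := R * Phi * S.map φ), Finset.sum_eq_single eQ]
        · rw [Matrix.map_apply, hReq, if_pos rfl, map_one, mul_one]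
        · intro x _ hx
          rw [Matrix.map_apply, hReq, if_neg hx, map_zero, mul_zero]
        · intro h
          exact absurd (Finset.mem_univ _) h
      have h8 : (R * Phi * S.map φ) a eQ - (if a = eQ then 1 else 0) =
          ∑ b, R a b * (Phi b (e σ0) - (if b = e σ0 then 1 else 0)) +
            -((R * Phi * (1 - S.map φ * R.map φ) : Matrix (Fin q) m (RatFunc E)) a (e σ0)) := by
        rw [h7]
        simp only [mul_sub, Finset.sum_sub_distrib]
        have h9 : ∑ b, R a b * (if b = e σ0 then (1 : RatFunc E) else 0) =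
            if a = eQ then 1 else 0 := by
          rw [Finset.sum_eq_single (e σ0)]
          · rw [if_pos rfl, mul_one, hReq]
          · intro b _ hb
            rw [if_neg hb, mul_zero]
          · intro h
            exact absurd (Finset.mem_univ _) h
        rw [h9, Matrix.mul_apply (M := R) (N := Phi)]
        ring
      rw [h8]
      refine Dv.add (Dv.sum _ _ fun b _ => Dv.mul_left ?_ (hRi a b)) h6.neg
      exact Dv.mono hM1 (hFr.col σ0 b)
    · -- gap
      intro x y
      have h6 : ∀ σ, ∑ b, chi σ b * S b y = ∑ b, chi σ b * S b y := fun _ => rfl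
      have h7 : (if x = eQ then φ (chiQ y) else 0) =
          ∑ a, R x a * ∑ b, (∑ σ, (if a = e σ then φ (chi σ b) else 0)) * φ (S b y) := by
        have h8 : ∀ a, R x a * ∑ b, (∑ σ, (if a = e σ then φ (chi σ b) else 0)) * φ (S b y) =
            ∑ σ, (if a = e σ then R x a * φ (∑ b, chi σ b * S b y) else 0) := by
          intro a
          simp only [Finset.sum_mul, Finset.mul_sum]
          rw [Finset.sum_comm]
          refine Finset.sum_congr rfl fun σ _ => ?_
          split
          · rw [map_sum, Finset.mul_sum]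
            exact Finset.sum_congr rfl fun b _ => by rw [map_mul]
          · simp
        simp_rw [h8]
        rw [Finset.sum_comm]
        have h9 : ∀ σ, ∑ a, (if a = e σ then R x a * φ (∑ b, chi σ b * S b y) else 0) =
            (if x = eQ then 1 else 0) * φ (∑ b, chi σ b * S b y) := by
          intro σ
          rw [Finset.sum_ite_eq' Finset.univ (e σ), if_pos (Finset.mem_univ _), hReq]
        simp_rw [h9]
        rw [← Finset.mul_sum, ← map_sum, Finset.sum_comm]
        split
        · rw [one_mul]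
          congr 1
          simp only [hchiQ, hchiT]
          exact Finset.sum_congr rfl fun b _ => by rw [Finset.sum_mul]
        · rw [zero_mul]
      have h10 : (R * Phi * S.map φ) x y - (if x = eQ then φ (chiQ y) else 0) =
          ∑ a, R x a * ∑ b, (Phi a b - ∑ σ, (if a = e σ then φ (chi σ b) else 0)) *
            φ (S b y) := by
        rw [h7, Matrix.mul_assoc, Matrix.mul_apply, ← Finset.sum_sub_distrib]
        refine Finset.sum_congr rfl fun a _ => ?_
        rw [Matrix.mul_apply, ← mul_sub, ← Finset.sum_sub_distrib]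
        congr 1
        refine Finset.sum_congr rfl fun b _ => ?_
        rw [Matrix.map_apply, sub_mul]
      rw [h10]
      exact Dv.sum _ _ fun a _ => Dv.mul_left (Dv.sum _ _ fun b _ =>
        Dv.mul_right (hFr.gap a b) (hφS b y)) (hRi x a)

end

end Pool.CUBE.D
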