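import Pool.Agent.H50.CUBE.D8
import Pool.Agent.H63.CUBE.T1d

set_option autoImplicit false

/-! Cube project: the statement `QPSStmt` used in T1 (adapter from `D8.quotPkgS`). -/

namespace Pool.CUBE.D

open Matrix Pool.CM Pool.H93.Cube

theorem qps : Pool.CM.EG.QPSStmt := by
  intro X E _ A hA hA' Z κ _ _ _ m _ _ G chi e n hfin hP δ hδ hst hF
  obtain ⟨q, eQ, GQ, chiQ, R, h1, h2, h3, h4, h5⟩ := quotPkgS hA Z G chi e n hP δ hδ hst hF
  exact ⟨q, eQ, GQ, chiQ, R, h1, h2, h3, h4, fun σ => funext fun b => h5 σ b⟩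

end Pool.CUBE.D
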